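import Pool.Agent.H856.WE.Av

/-! # Translation between a Galois number field and the algebraic numbers -/

set_option autoImplicit false

open Polynomial NumberField

namespace Pool.Agent.H856.WE

open Pool.Agent.H856.WD

namespace AvProof

theorem hom_ext {E R : Type} [Field E] [CharZero E] [Field R] [CharZero R] {w : E}
    (hw : IntermediateField.adjoin ℚ {w} = ⊤) (f g : E →+* R) (h : f w = g w) : f = g := by
  ext x
  have hx : x ∈ IntermediateField.adjoin ℚ {w} := by rw [hw]; trivial
  induction hx using IntermediateField.adjoin_induction with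
  | mem y hy => rw [Set.mem_singleton_iff.1 hy]; exact h
  | algebraMap r => simp
  | add x y _ _ h1 h2 => rw [map_add, map_add, h1, h2]
  | inv x _ h1 => rw [map_inv₀, map_inv₀, h1]
  | mul x y _ _ h1 h2 => rw [map_mul, map_mul, h1, h2]

theorem exists_root {A B : Type} [Field A] [Field B] (f : A →+* B) (Q : A[X]) (hQ : Q.Splits)
    (hQ0 : Q ≠ 0) (y : B) (hy : (Q.map f).eval y = 0) : ∃ r, Q.eval r = 0 ∧ f r = y := by
  have h1 : y ∈ (Q.map f).roots := by
    rw [mem_roots ((Polynomial.map_ne_zero_iff f.injective).2 hQ0)]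
    exact hy
  rw [hQ.roots_map f, Multiset.mem_map] at h1
  obtain ⟨r, hr, hr2⟩ := h1
  exact ⟨r, (mem_roots'.1 hr).2, hr2⟩

theorem exists_fin {α : Type*} (s : Multiset α) {N : ℕ} (h : s.card = N) :
    ∃ γ : Fin N → α, Multiset.map γ Finset.univ.val = s := by
  subst h
  induction s using Quotient.inductionOn with
  | h l =>
    refine ⟨fun i => l.get (Fin.cast (by simp) i), ?_⟩
    have h1 : (fun i : Fin (Multiset.card (Quotient.mk _ l : Multiset α)) =>
        l.get (Fin.cast (by simp) i)) = l.get := rfl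
    rw [h1]
    change Multiset.map l.get (Finset.univ : Finset (Fin l.length)).val = (l : Multiset α)
    rw [Fin.univ_val_map, List.ofFn_get]

theorem root_integral {K : Type} [Field K] (Q : K[X]) (hQ : Q.Monic)
    (hi : ∀ n, IsIntegral ℤ (Q.coeff n)) {x : K} (hx : Q.eval x = 0) : IsIntegral ℤ x := by
  have hl : Q ∈ lifts (algebraMap (integralClosure ℤ K) K) := by
    rw [lifts_iff_coeff_lifts]
    intro n
    exact ⟨⟨_, hi n⟩, rfl⟩
  obtain ⟨R, hR, _, hRm⟩ := lifts_and_natDegree_eq_and_monic hl hQ
  have h2 : IsIntegral (integralClosure ℤ K) x := by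
    refine ⟨R, hRm, ?_⟩
    rw [← eval_map, hR, hx]
  exact isIntegral_trans x h2

theorem lift {E : Type} [Field E] [NumberField E] (j : AlgebraicClosure ℚ →+* ℂ) (t : E →+* ℂ) :
    ∃ t2 : E →+* AlgebraicClosure ℚ, ∀ x, j (t2 x) = t x := by
  have hr : ∀ x, t x ∈ j.range := by
    intro x
    have hint : IsIntegral ℚ x := Algebra.IsIntegral.isIntegral x
    have h1 : (((minpoly ℚ x).map (algebraMap ℚ (AlgebraicClosure ℚ))).map j).eval (t x) = 0 := by
      rw [Polynomial.map_map]
      have e1 : j.comp (algebraMap ℚ (AlgebraicClosure ℚ)) = t.comp (algebraMap ℚ E) :=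
        Subsingleton.elim _ _
      rw [e1, ← Polynomial.map_map, eval_map, eval₂_hom, eval_map, ← aeval_def, minpoly.aeval,
        map_zero]
    obtain ⟨r, _, hr2⟩ := exists_root j _ (IsAlgClosed.splits _)
      ((Polynomial.map_ne_zero (minpoly.ne_zero hint))) (t x) h1
    exact ⟨r, hr2⟩
  let e : AlgebraicClosure ℚ ≃+* j.range := RingEquiv.ofBijective j.rangeRestrict
    ⟨fun a b hab => j.injective (congrArg Subtype.val hab), j.rangeRestrict_surjective⟩
  refine ⟨(e.symm : j.range →+* AlgebraicClosure ℚ).comp (t.codRestrict j.range hr), fun x => ?_⟩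
  have h1 : e (e.symm (t.codRestrict j.range hr x)) = t.codRestrict j.range hr x :=
    e.apply_symm_apply _
  exact congrArg Subtype.val h1

end AvProof

open AvProof in
theorem av : S_AV := by
  classical
  intro hA hP hG hS p _ a N E _ _ _ c P Γ ha hN1 hN3 hc hu hPm hPd hPi hΓ hab
  obtain ⟨j⟩ : Nonempty (AlgebraicClosure ℚ →+* ℂ) := by
    have : Algebra.IsAlgebraic ℚ (AlgebraicClosure ℚ) := AlgebraicClosure.isAlgebraic ℚ
    exact ⟨(IsAlgClosed.lift : AlgebraicClosure ℚ →ₐ[ℚ] ℂ).toRingHom⟩
  obtain ⟨w, hw⟩ := Field.exists_primitive_element ℚ E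
  have hwi : IsIntegral ℚ w := Algebra.IsIntegral.isIntegral w
  choose L hL using fun t : E →+* ℂ => lift j t
  have hLu : ∀ f : E →+* AlgebraicClosure ℚ, L (j.comp f) = f := by
    intro f
    ext x
    exact j.injective (hL (j.comp f) x)
  have hmin : ∀ f : E →+* AlgebraicClosure ℚ, minpoly ℚ (f w) = minpoly ℚ w := by
    intro f
    exact minpoly.algHom_eq f.toRatAlgHom f.injective w
  have hroot : ∀ y : AlgebraicClosure ℚ, aeval y (minpoly ℚ w) = 0 →
      ∃ f : E →+* AlgebraicClosure ℚ, f w = y := by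
    intro y hy
    obtain ⟨f, hf⟩ := IntermediateField.exists_algHom_of_splits_of_aeval (F := ℚ) (x := w)
      (fun s : E => ⟨Algebra.IsIntegral.isIntegral s, IsAlgClosed.splits _⟩) hy
    exact ⟨f.toRingHom, hf⟩
  -- the roots of the polynomials
  have hPne : P ≠ 0 := hPm.ne_zero
  have hγ : ∀ x : (E →+* ℂ) × Fin N, ∃ r : AlgebraicClosure ℚ,
      (P.map (L x.1)).eval r = 0 ∧ j r = Γ x := by
    intro x
    apply exists_root j _ (IsAlgClosed.splits _) ((Polynomial.map_ne_zero hPne))
    have e1 : j.comp (L x.1) = x.1 := by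
      ext y; exact hL x.1 y
    rw [Polynomial.map_map, e1, hΓ x.1, eval_prod]
    apply Finset.prod_eq_zero (Finset.mem_univ x.2)
    simp
  choose γ hγ0 hγj using hγ
  have hconc := hG hA hP p a N (E →+* ℂ) (fun t => L t w) (fun t => (starRingEnd ℂ).comp t)
    (fun t => P.map (L t)) γ j ha hN1 hN3 ?_ ?_ ?_ ?_ ?_ ?_ ?_ ?_ ?_
  · have e : (fun x => j (γ x)) = Γ := funext hγj
    rw [e] at hconc
    exact hconc
  · -- injectivity
    intro t t' h
    have h1 : L t = L t' := hom_ext hw _ _ h
    ext x
    rw [← hL t, ← hL t', h1]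
  · -- irreducibility
    intro t
    rw [hmin]
    exact hS p E w hw hu
  · -- the roots of the minimal polynomial
    intro t x
    rw [hmin]
    constructor
    · intro hx
      obtain ⟨f, hf⟩ := hroot x hx
      exact ⟨j.comp f, by rw [hLu, hf]⟩
    · rintro ⟨t', rfl⟩
      rw [← hmin (L t')]
      exact minpoly.aeval _ _
  · -- normality
    intro g t t' hg
    have h1 : (g : AlgebraicClosure ℚ →+* AlgebraicClosure ℚ).comp (L t) = L t :=
      hom_ext hw _ _ hg
    have hsp : ((minpoly ℚ w).map (algebraMap ℚ E)).Splits := Normal.splits inferInstance w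
    obtain ⟨r, _, hr⟩ := exists_root (L t) _ hsp
      ((Polynomial.map_ne_zero (minpoly.ne_zero hwi))) (L t' w) (by
        rw [Polynomial.map_map]
        have e1 : (L t).comp (algebraMap ℚ E) = algebraMap ℚ (AlgebraicClosure ℚ) :=
          Subsingleton.elim _ _
        rw [e1, eval_map, ← aeval_def, ← hmin (L t'), minpoly.aeval])
    change g (L t' w) = L t' w
    rw [← hr]
    exact RingHom.congr_fun h1 r
  · -- complex conjugation
    intro φ t
    have h1 : L ((starRingEnd ℂ).comp t) = (L t).comp c := by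
      ext x
      apply j.injective
      rw [hL]
      change (starRingEnd ℂ) (t x) = j (L t (c x))
      rw [hL, hc]
    change φ (L ((starRingEnd ℂ).comp t) w) = (starRingEnd ℂ) (φ (L t w))
    rw [h1]
    exact hc (φ.comp (L t)) w
  · -- factorisation
    intro t
    apply Polynomial.map_injective j j.injective
    have e1 : j.comp (L t) = t := by
      ext y; exact hL t y
    rw [Polynomial.map_map, e1, hΓ t, Polynomial.map_prod]
    apply Finset.prod_congr rfl
    intro i _
    rw [Polynomial.map_sub, map_X, map_C, hγj]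
  · -- conjugation of the polynomials
    intro g t t' hg
    have h1 : (g : AlgebraicClosure ℚ →+* AlgebraicClosure ℚ).comp (L t) = L t' :=
      hom_ext hw _ _ hg
    change (P.map (L t)).map _ = P.map (L t')
    rw [Polynomial.map_map, h1]
  · -- absolute values
    intro φ x
    obtain ⟨t, i⟩ := x
    have h1 : (P.map (φ.comp (L t))).eval (φ (γ (t, i))) = 0 := by
      rw [← Polynomial.map_map, eval_map, eval₂_hom, hγ0 (t, i), map_zero]
    rw [hΓ, eval_prod] at h1
    obtain ⟨k, _, hk⟩ := Finset.prod_eq_zero_iff.1 h1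
    rw [eval_sub, eval_X, eval_C, sub_eq_zero] at hk
    rw [hk]
    exact hab _
  · -- integrality
    intro x
    refine root_integral (P.map (L x.1)) (hPm.map _) ?_ (hγ0 x)
    intro n
    rw [coeff_map]
    exact (hPi n).map (L x.1).toIntAlgHom

end Pool.Agent.H856.WE
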