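import Pool.Agent.H856.WD.SysProof

/-! # Systems of classes without Weil classes -/

set_option autoImplicit false

open Polynomial

namespace Pool.Agent.H856.WE

open Pool.Agent.H856.WD

/-- the properties of the spaces `A n` spanned by the products of classes of degree two: those of
`IsCycleSystem`, without the Weil classes -/
structure IsDivisorSystem {T : Type} [Fintype T] [DecidableEq T] {N : ℕ} (q : ℂ)
    (Γ : T × Fin N → ℂ) (A : ∀ n, Submodule ℂ (Tens T N n)) : Prop where
  /-- the unit -/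
  unit : (fun _ => 1 : Tens T N 0) ∈ A 0
  /-- exterior products -/
  prod : ∀ {m n : ℕ} (S : Tens T N m) (S' : Tens T N n), S ∈ A m → S' ∈ A n →
    (fun a => S (fun i => a (Fin.castAdd n i)) * S' (fun i => a (Fin.natAdd m i)) :
      Tens T N (m + n)) ∈ A (m + n)
  /-- permutations of the factors -/
  perm : ∀ {n : ℕ} (S : Tens T N n) (σ : Equiv.Perm (Fin n)), S ∈ A n →
    (fun a => S (a ∘ σ)) ∈ A n
  /-- the endomorphisms of `H` which commute with a power of the Frobenius -/
  endo : ∀ (E : T × Fin N → T × Fin N → ℂ) (m : ℕ), 0 < m →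
    (∀ x y, E x y ≠ 0 → Γ x ^ m = Γ y ^ m) → ∀ {n : ℕ} (S : Tens T N n) (i : Fin n), S ∈ A n →
    (fun a => ∑ y, E (a i) y * S (Function.update a i y)) ∈ A n
  /-- the Tate classes of degree two -/
  tate : ∀ S : Tens T N 2, IsTate q Γ S → S ∈ A 2

/-- for `N ≤ 2` the Weil classes are of degree two -/
theorem IsDivisorSystem.cycle {T : Type} [Fintype T] [DecidableEq T] {N : ℕ} {q : ℂ} (hq : q ≠ 0)
    {Γ : T × Fin N → ℂ} (hdet : DetRel q Γ) {A : ∀ n, Submodule ℂ (Tens T N n)}
    (h : IsDivisorSystem q Γ A) (h1 : 1 ≤ N) (h2 : N ≤ 2) : IsCycleSystem q Γ A := by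
  obtain ⟨h3, h4⟩ := sys T N q Γ hq hdet
  have hmem : ∀ S : Tens T N 2, S ∈ tateSub q Γ 2 → S ∈ A 2 := by
    intro S hS
    rcases h4 2 S hS with h5 | h5
    · rw [h5]
      exact (A 2).zero_mem
    · exact h.tate S h5
  have hw : Even N → ∀ t, detT t ∈ A N := by
    intro hN t
    obtain rfl : N = 2 := by
      obtain ⟨m, hm⟩ := hN
      omega
    exact hmem _ (h3.weil hN t)
  refine ⟨h.unit, h.prod, h.perm, h.endo, h.tate, hw, ?_⟩
  intro t t'
  obtain rfl | rfl : N = 1 ∨ N = 2 := by omega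
  · exact hmem _ (h3.weil₂ t t')
  · exact h.prod _ _ (hw (by decide) t) (hw (by decide) t')

end Pool.Agent.H856.WE
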