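import Pool.Agent.H856.WE.Stm

/-! # One prime above `p` implies irreducibility over the `p`-adic numbers -/

set_option autoImplicit false

open Polynomial NumberField

namespace Pool.Agent.H856.WE

namespace SplProof

variable (p : ℕ) [Fact p.Prime]

theorem norm_le_one_of_isIntegral (x : PadicAlgCl p) (hx : IsIntegral ℤ x) : ‖x‖ ≤ 1 := by
  have h1 := Valuation.Integers.mem_of_integral
    (Valuation.integer.integers (Valued.v : Valuation (PadicAlgCl p) NNReal)) (x := x)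
    (hx.tower_top)
  rw [Valuation.mem_integer_iff, PadicAlgCl.valuation_def] at h1
  exact_mod_cast h1

variable {E : Type} [Field E] [NumberField E]

omit [NumberField E] in
theorem norm_int_le_one (φ : E →+* PadicAlgCl p) (y : 𝓞 E) : ‖φ (y : E)‖ ≤ 1 := by
  apply norm_le_one_of_isIntegral
  exact (RingOfIntegers.isIntegral_coe y).map φ.toIntAlgHom

/-- the centre -/
noncomputable def ctr (φ : E →+* PadicAlgCl p) : Ideal (𝓞 E) where
  carrier := {y | ‖φ (y : E)‖ < 1}
  add_mem' := by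
    intro a b ha hb
    have h1 : ‖φ (a : E) + φ (b : E)‖ ≤ max ‖φ (a : E)‖ ‖φ (b : E)‖ :=
      PadicAlgCl.isNonarchimedean p _ _
    have h2 : φ ((a + b : 𝓞 E) : E) = φ (a : E) + φ (b : E) := by
      rw [← map_add]; rfl
    change ‖φ ((a + b : 𝓞 E) : E)‖ < 1
    rw [h2]
    exact lt_of_le_of_lt h1 (max_lt ha hb)
  zero_mem' := by
    change ‖φ ((0 : 𝓞 E) : E)‖ < 1
    have : ((0 : 𝓞 E) : E) = 0 := rfl
    rw [this, map_zero, norm_zero]; exact one_pos
  smul_mem' := by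
    intro c x hx
    have h2 : φ ((c * x : 𝓞 E) : E) = φ (c : E) * φ (x : E) := by
      rw [← map_mul]; rfl
    change ‖φ ((c * x : 𝓞 E) : E)‖ < 1
    rw [h2, norm_mul]
    have hc := norm_int_le_one p φ c
    have hx' : ‖φ (x : E)‖ < 1 := hx
    nlinarith [norm_nonneg (φ (c : E)), norm_nonneg (φ (x : E))]

theorem mem_ctr (φ : E →+* PadicAlgCl p) (y : 𝓞 E) : y ∈ ctr p φ ↔ ‖φ (y : E)‖ < 1 := Iff.rfl

theorem ctr_prime (φ : E →+* PadicAlgCl p) : (ctr p φ).IsPrime := by
  constructor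
  · rw [Ideal.ne_top_iff_one, mem_ctr]
    have : ((1 : 𝓞 E) : E) = 1 := rfl
    rw [this, map_one, norm_one]
    exact lt_irrefl _
  · intro a b hab
    by_contra hcon
    push Not at hcon
    rw [mem_ctr] at hab
    rw [mem_ctr, mem_ctr] at hcon
    have h2 : φ ((a * b : 𝓞 E) : E) = φ (a : E) * φ (b : E) := by
      rw [← map_mul]; rfl
    rw [h2, norm_mul] at hab
    nlinarith [hcon.1, hcon.2]

theorem p_mem_ctr (φ : E →+* PadicAlgCl p) : (p : 𝓞 E) ∈ ctr p φ := by
  rw [mem_ctr]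
  have h1 : φ ((p : 𝓞 E) : E) = ((p : ℚ_[p]) : PadicAlgCl p) := by
    have : ((p : 𝓞 E) : E) = (p : E) := by simp
    rw [this, map_natCast]
    exact (map_natCast (algebraMap ℚ_[p] (PadicAlgCl p)) p).symm
  rw [h1, PadicAlgCl.norm_extends]
  exact Padic.norm_p_lt_one

/-- an element of a number field or its inverse is a fraction with denominator outside a given prime -/
theorem frac (P : Ideal (𝓞 E)) [hP : P.IsPrime] (hP0 : P ≠ ⊥) (x : E) :
    (∃ a b : 𝓞 E, b ∉ P ∧ x * b = a) ∨ (∃ a b : 𝓞 E, b ∉ P ∧ x⁻¹ * b = a) := by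
  have hS : P.primeCompl ≤ nonZeroDivisors (𝓞 E) := P.primeCompl_le_nonZeroDivisors
  let A := Localization.subalgebra.ofField E P.primeCompl hS
  have : IsLocalization.AtPrime A P := Localization.subalgebra.isLocalization_ofField E P.primeCompl hS
  have : IsFractionRing A E := Localization.subalgebra.isFractionRing_ofField E P.primeCompl hS
  have : IsDiscreteValuationRing A :=
    IsLocalization.AtPrime.isDiscreteValuationRing_of_dedekind_domain (𝓞 E) hP0 A
  have key : ∀ y : E, IsLocalization.IsInteger A y → ∃ a b : 𝓞 E, b ∉ P ∧ y * b = a := by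
    intro y hy
    obtain ⟨z, hz⟩ := hy
    have hz2 : y ∈ A := by
      rw [← hz]; exact z.2
    have h3 : ∃ (a s : 𝓞 E) (_ : s ∈ P.primeCompl),
        y = algebraMap (𝓞 E) E a * (algebraMap (𝓞 E) E s)⁻¹ := hz2
    obtain ⟨a, s, hs, h⟩ := h3
    refine ⟨a, s, hs, ?_⟩
    rw [h]
    have hs0 : algebraMap (𝓞 E) E s ≠ 0 := by
      intro h0
      have : s = 0 := by
        apply (IsFractionRing.injective (𝓞 E) E)
        rw [h0, map_zero]
      apply hs
      rw [this]; exact P.zero_mem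
    change algebraMap (𝓞 E) E a * (algebraMap (𝓞 E) E s)⁻¹ * algebraMap (𝓞 E) E s =
      algebraMap (𝓞 E) E a
    field_simp
  rcases ValuationRing.isInteger_or_isInteger A x with h | h
  · exact Or.inl (key _ h)
  · exact Or.inr (key _ h)

/-- the valuations of two embeddings agree if there is only one prime -/
theorem compare
    (hu : ∀ P Q : Ideal (𝓞 E), P.IsPrime → Q.IsPrime → (p : 𝓞 E) ∈ P → (p : 𝓞 E) ∈ Q → P = Q)
    (φ ψ : E →+* PadicAlgCl p) (x : E) (h1 : ‖ψ x‖ < 1) : ‖φ x‖ < 1 := by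
  by_cases hx : x = 0
  · rw [hx, map_zero, norm_zero]; exact one_pos
  have hPQ : ctr p φ = ctr p ψ :=
    hu _ _ (ctr_prime p φ) (ctr_prime p ψ) (p_mem_ctr p φ) (p_mem_ctr p ψ)
  have := ctr_prime p φ
  have hp0 : (p : 𝓞 E) ≠ 0 := by
    exact_mod_cast (Fact.out : p.Prime).ne_zero
  have hP0 : ctr p φ ≠ ⊥ := by
    intro h
    have := p_mem_ctr p φ
    rw [h] at this
    exact hp0 this
  have hnorm : ∀ (χ : E →+* PadicAlgCl p), ctr p χ = ctr p φ → ∀ b : 𝓞 E, b ∉ ctr p φ →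
      ‖χ (b : E)‖ = 1 := by
    intro χ hχ b hb
    rw [← hχ, mem_ctr] at hb
    exact le_antisymm (norm_int_le_one p χ b) (not_lt.1 hb)
  rcases frac (ctr p φ) hP0 x with ⟨a, b, hb, h⟩ | ⟨a, b, hb, h⟩
  · have hb1 := hnorm φ rfl b hb
    have hb2 := hnorm ψ hPQ.symm b hb
    have e1 : ‖φ x‖ = ‖φ (a : E)‖ := by
      rw [← h, map_mul, norm_mul, hb1, mul_one]
    have e2 : ‖ψ x‖ = ‖ψ (a : E)‖ := by
      rw [← h, map_mul, norm_mul, hb2, mul_one]
    rw [e1]
    rw [e2] at h1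
    have : a ∈ ctr p ψ := h1
    rw [← hPQ] at this
    exact this
  · exfalso
    have hb2 := hnorm ψ hPQ.symm b hb
    have e2 : ‖ψ x⁻¹‖ = ‖ψ (a : E)‖ := by
      rw [← h, map_mul, norm_mul, hb2, mul_one]
    have h3 := norm_int_le_one p ψ a
    rw [← e2, map_inv₀, norm_inv] at h3
    have hpos : 0 < ‖ψ x‖ := by
      rw [norm_pos_iff]
      exact (map_ne_zero ψ).2 hx
    have : 1 < ‖ψ x‖⁻¹ := (one_lt_inv₀ hpos).2 h1
    linarith

/-- approximation of the values of a polynomial at two points -/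
theorem approx (z w : PadicAlgCl p) (f : ℚ_[p][X]) : ∀ ε : ℝ, 0 < ε →
    ∃ g : ℚ[X], ‖aeval z g - aeval z f‖ < ε ∧ ‖aeval w g - aeval w f‖ < ε := by
  induction f using Polynomial.induction_on' with
  | add f₁ f₂ h₁ h₂ =>
    intro ε hε
    obtain ⟨g₁, a₁, b₁⟩ := h₁ ε hε
    obtain ⟨g₂, a₂, b₂⟩ := h₂ ε hε
    refine ⟨g₁ + g₂, ?_, ?_⟩
    · have e : aeval z (g₁ + g₂) - aeval z (f₁ + f₂) =
          (aeval z g₁ - aeval z f₁) + (aeval z g₂ - aeval z f₂) := by
        rw [map_add, map_add]; ring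
      rw [e]
      exact lt_of_le_of_lt (PadicAlgCl.isNonarchimedean p _ _) (max_lt a₁ a₂)
    · have e : aeval w (g₁ + g₂) - aeval w (f₁ + f₂) =
          (aeval w g₁ - aeval w f₁) + (aeval w g₂ - aeval w f₂) := by
        rw [map_add, map_add]; ring
      rw [e]
      exact lt_of_le_of_lt (PadicAlgCl.isNonarchimedean p _ _) (max_lt b₁ b₂)
  | monomial n c =>
    intro ε hε
    have hM : 0 < 1 + ‖z‖ ^ n + ‖w‖ ^ n := by positivity
    obtain ⟨r, hr⟩ := Padic.rat_dense (p := p) c (div_pos hε hM)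
    have hr' : ‖(r : ℚ_[p]) - c‖ < ε / (1 + ‖z‖ ^ n + ‖w‖ ^ n) := by
      rw [norm_sub_rev]; exact hr
    have key : ∀ t : PadicAlgCl p, ‖t‖ ^ n ≤ 1 + ‖z‖ ^ n + ‖w‖ ^ n →
        ‖aeval t (monomial n r : ℚ[X]) - aeval t (monomial n c)‖ < ε := by
      intro t ht
      have e : aeval t (monomial n r : ℚ[X]) - aeval t (monomial n c) =
          (algebraMap ℚ_[p] (PadicAlgCl p) ((r : ℚ_[p]) - c)) * t ^ n := by
        rw [aeval_monomial, aeval_monomial, map_sub, sub_mul]
        congr 2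
      rw [e, norm_mul, norm_pow]
      have e2 : ‖algebraMap ℚ_[p] (PadicAlgCl p) ((r : ℚ_[p]) - c)‖ = ‖(r : ℚ_[p]) - c‖ :=
        PadicAlgCl.norm_extends p _
      rw [e2]
      calc ‖(r : ℚ_[p]) - c‖ * ‖t‖ ^ n ≤ ‖(r : ℚ_[p]) - c‖ * (1 + ‖z‖ ^ n + ‖w‖ ^ n) :=
            mul_le_mul_of_nonneg_left ht (norm_nonneg _)
        _ < ε / (1 + ‖z‖ ^ n + ‖w‖ ^ n) * (1 + ‖z‖ ^ n + ‖w‖ ^ n) :=
            mul_lt_mul_of_pos_right hr' hM
        _ = ε := div_mul_cancel₀ _ hM.ne'
    refine ⟨monomial n r, key z ?_, key w ?_⟩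
    · have := pow_nonneg (norm_nonneg w) n
      linarith
    · have := pow_nonneg (norm_nonneg z) n
      linarith

end SplProof

open SplProof in
theorem spl : S_SPL := by
  intro p _ E _ _ _ θ _ hu
  set m := minpoly ℚ θ with hm
  have hint : IsIntegral ℚ θ := Algebra.IsIntegral.isIntegral θ
  have hmonic : m.Monic := minpoly.monic hint
  have hirr : Irreducible m := minpoly.irreducible hint
  have hMmonic : (m.map (algebraMap ℚ ℚ_[p])).Monic := hmonic.map _
  have hdeg : 0 < (m.map (algebraMap ℚ ℚ_[p])).natDegree := by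
    rw [natDegree_map]
    exact minpoly.natDegree_pos hint
  have hnu : ¬ IsUnit (m.map (algebraMap ℚ ℚ_[p])) := by
    intro h
    have := natDegree_eq_zero_of_isUnit h
    omega
  by_contra hno
  -- a factorisation
  rw [irreducible_iff] at hno
  push Not at hno
  obtain ⟨g, h, hgh, hg, hh⟩ := hno hnu
  have hM0 : m.map (algebraMap ℚ ℚ_[p]) ≠ 0 := hMmonic.ne_zero
  have hg0 : g ≠ 0 := by
    rintro rfl
    rw [zero_mul] at hgh
    exact hM0 hgh
  have hh0 : h ≠ 0 := by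
    rintro rfl
    rw [mul_zero] at hgh
    exact hM0 hgh
  have hsep : (m.map (algebraMap ℚ ℚ_[p])).Separable :=
    (hirr.separable).map
  have hcop : IsCoprime g h := by
    rw [hgh] at hsep
    exact hsep.isCoprime
  have root : ∀ f : ℚ_[p][X], f ≠ 0 → ¬ IsUnit f → ∃ z : PadicAlgCl p, aeval z f = 0 := by
    intro f hf hfu
    have hd : f.degree ≠ 0 := by
      intro h0
      exact hfu (isUnit_iff_degree_eq_zero.2 h0)
    exact IsAlgClosed.exists_aeval_eq_zero (PadicAlgCl p) f hd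
  obtain ⟨z, hz⟩ := root g hg0 hg
  obtain ⟨w, hw⟩ := root h hh0 hh
  have hzm : aeval z m = 0 := by
    have : aeval z (m.map (algebraMap ℚ ℚ_[p])) = 0 := by
      rw [hgh, map_mul, hz, zero_mul]
    rwa [aeval_map_algebraMap] at this
  have hwm : aeval w m = 0 := by
    have : aeval w (m.map (algebraMap ℚ ℚ_[p])) = 0 := by
      rw [hgh, map_mul, hw, mul_zero]
    rwa [aeval_map_algebraMap] at this
  have emb : ∀ y : PadicAlgCl p, aeval y m = 0 → ∃ φ : E →ₐ[ℚ] PadicAlgCl p, φ θ = y := by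
    intro y hy
    exact IntermediateField.exists_algHom_of_splits_of_aeval
      (fun s => ⟨Algebra.IsIntegral.isIntegral s, IsAlgClosed.splits _⟩) hy
  obtain ⟨φ, hφ⟩ := emb z hzm
  obtain ⟨ψ, hψ⟩ := emb w hwm
  obtain ⟨u, v, huv⟩ := hcop
  obtain ⟨e, he1, he2⟩ := approx p z w (v * h) 1 one_pos
  have v1 : aeval z (v * h) = 1 := by
    have : aeval z (u * g + v * h) = 1 := by rw [huv, map_one]
    rw [map_add, map_mul, hz, mul_zero, zero_add] at this
    exact this
  have v2 : aeval w (v * h) = 0 := by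
    rw [map_mul, hw, mul_zero]
  rw [v1] at he1
  rw [v2, sub_zero] at he2
  have hψe : ψ (aeval θ e) = aeval w e := by
    rw [← aeval_algHom_apply, hψ]
  have hφe : φ (aeval θ e) = aeval z e := by
    rw [← aeval_algHom_apply, hφ]
  have hc := compare p hu (φ : E →+* PadicAlgCl p) (ψ : E →+* PadicAlgCl p) (aeval θ e) (by
    change ‖ψ (aeval θ e)‖ < 1
    rw [hψe]; exact he2)
  have hc' : ‖aeval z e‖ < 1 := by
    rw [← hφe]; exact hc
  have h1 : (1 : PadicAlgCl p) = aeval z e + (-(aeval z e - 1)) := by ring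
  have h2 : ‖(1 : PadicAlgCl p)‖ < 1 := by
    calc ‖(1 : PadicAlgCl p)‖ = ‖aeval z e + (-(aeval z e - 1))‖ := by rw [← h1]
      _ ≤ max ‖aeval z e‖ ‖-(aeval z e - 1)‖ := PadicAlgCl.isNonarchimedean p _ _
      _ < 1 := max_lt hc' (by rw [norm_neg]; exact he1)
  rw [norm_one] at h2
  exact lt_irrefl _ h2

end Pool.Agent.H856.WE
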