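import Pool.Agent.H856.WE.Stm

/-! # Abelian varieties with multiplication by a field in which `p` does not split: statement -/

set_option autoImplicit false

open Polynomial NumberField

namespace Pool.Agent.H856.WE

open Pool.Agent.H856.WD

/-- AV: `E` is a Galois number field, totally real or CM (with the complex conjugation `c`), with only one
prime ideal above `p`, and `P` is a monic polynomial over `E` with integral coefficients, of degree
`N ≤ 3`, whose roots in all embeddings of `E` have the absolute value `√q`, `q = p ^ a` -/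
def S_AV : Prop :=
  S_ACT → S_PLA2 → S_GLU2 → S_SPL →
  ∀ (p : ℕ) [Fact p.Prime] (a N : ℕ) (E : Type) [Field E] [NumberField E] [IsGalois ℚ E]
    (c : E →+* E) (P : E[X]) (Γ : (E →+* ℂ) × Fin N → ℂ),
    0 < a → 1 ≤ N → N ≤ 3 →
    (∀ (φ : E →+* ℂ) (x : E), φ (c x) = (starRingEnd ℂ) (φ x)) →
    (∀ I J : Ideal (𝓞 E), I.IsPrime → J.IsPrime → (p : 𝓞 E) ∈ I → (p : 𝓞 E) ∈ J → I = J) →
    P.Monic → P.natDegree = N → (∀ n, IsIntegral ℤ (P.coeff n)) →
    (∀ φ : E →+* ℂ, P.map φ = ∏ i, (X - C (Γ (φ, i)))) →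
    (∀ x, ‖Γ x‖ ^ 2 = (p : ℝ) ^ a) →
    DetRel ((p : ℂ) ^ a) Γ ∧ (CaseA ((p : ℂ) ^ a) Γ ∨ CaseB ((p : ℂ) ^ a) Γ)

end Pool.Agent.H856.WE
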