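import Pool.Agent.H856.WD.App

/-! # L-polynomials given by their coefficients -/

set_option autoImplicit false
set_option linter.all false
set_option linter.unusedSectionVars false

open Polynomial

namespace Pool.Agent.H856.WE

open Pool.Agent.H856.WD
open Pool.Agent.H498R2.Kl (HID)
open Pool.Agent.H341R2.Sharp (root_norm)

section

variable {R : Type} [CommRing R]

/-- the L-function -/
noncomputable def LG (A : ℕ → R) (N : ℕ) : R[X] := ∑ n ∈ Finset.range (N + 1), C (A n) * X ^ n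

/-- the characteristic polynomial of the Frobenius -/
noncomputable def PG (A : ℕ → R) (N : ℕ) : R[X] := reflect N (LG A N)

theorem coeff_LG (A : ℕ → R) (N n : ℕ) :
    (LG A N).coeff n = if n < N + 1 then A n else 0 := by
  unfold LG
  rw [finset_sum_coeff]
  simp only [coeff_C_mul, coeff_X_pow]
  split_ifs with h
  · rw [Finset.sum_eq_single n]
    · simp
    · intro m _ hm
      rw [if_neg (Ne.symm hm), mul_zero]
    · intro hn
      exact absurd (Finset.mem_range.2 h) hn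
  · rw [Finset.sum_eq_zero]
    intro m hm
    rw [Finset.mem_range] at hm
    rw [if_neg (by omega), mul_zero]

theorem PG_monic [Nontrivial R] {A : ℕ → R} (h0 : A 0 = 1) (N : ℕ) :
    (PG A N).Monic ∧ (PG A N).natDegree = N := by
  have hc : (PG A N).coeff N = 1 := by
    unfold PG
    rw [coeff_reflect, revAt_le le_rfl, Nat.sub_self, coeff_LG, if_pos (by omega), h0]
  have hle : (PG A N).natDegree ≤ N := by
    rw [natDegree_le_iff_coeff_eq_zero]
    intro i hi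
    unfold PG
    rw [coeff_reflect, revAt_eq_self_of_lt hi, coeff_LG, if_neg (by omega)]
  have hm := monic_of_natDegree_le_of_coeff_eq_one _ hle hc
  refine ⟨hm, le_antisymm hle ?_⟩
  apply le_natDegree_of_ne_zero
  rw [hc]
  exact one_ne_zero

theorem PG_reverse [Nontrivial R] {A : ℕ → R} (h0 : A 0 = 1) (N : ℕ) :
    (PG A N).reverse = LG A N := by
  ext n
  rw [coeff_reverse, (PG_monic h0 N).2]
  unfold PG
  rw [coeff_reflect, revAt_invol]

theorem PG_map {R' : Type} [CommRing R'] (φ : R →+* R') {A : ℕ → R} {A' : ℕ → R'}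
    (h : ∀ n, φ (A n) = A' n) (N : ℕ) : (PG A N).map φ = PG A' N := by
  ext n
  unfold PG
  rw [coeff_map, coeff_reflect, coeff_reflect, coeff_LG, coeff_LG]
  split_ifs with h1
  · exact h _
  · exact map_zero φ

end

section

variable {Ω : Type} [Field Ω]

theorem PG_roots [IsAlgClosed Ω] {A : ℕ → Ω} (h0 : A 0 = 1) (N : ℕ) :
    ∃ γ : Fin N → Ω, PG A N = ∏ i, (X - C (γ i)) := by
  obtain ⟨h1, h2⟩ := PG_monic h0 N
  have hs : (PG A N).Splits := IsAlgClosed.splits _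
  obtain ⟨γ, hγ⟩ := exists_fin (PG A N).roots (N := N)
    (by rw [← hs.natDegree_eq_card_roots, h2])
  refine ⟨γ, ?_⟩
  conv_lhs => rw [hs.eq_prod_roots_of_monic h1, ← hγ]
  rw [Multiset.map_map]
  rfl

theorem PG_root_integral {A : ℕ → Ω} (h0 : A 0 = 1) (hA : ∀ n, IsIntegral ℤ (A n)) (N : ℕ)
    {x : Ω} (hx : (PG A N).eval x = 0) : IsIntegral ℤ x := by
  have hl : PG A N ∈ lifts (algebraMap (integralClosure ℤ Ω) Ω) := by
    rw [lifts_iff_coeff_lifts]
    intro n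
    unfold PG
    rw [coeff_reflect, coeff_LG]
    split_ifs with h1
    · exact ⟨⟨_, hA _⟩, rfl⟩
    · exact ⟨0, map_zero _⟩
  obtain ⟨Q, hQ, _, hQm⟩ := lifts_and_natDegree_eq_and_monic hl (PG_monic h0 N).1
  have h2 : IsIntegral (integralClosure ℤ Ω) x := by
    refine ⟨Q, hQm, ?_⟩
    rw [← eval_map, hQ, hx]
  exact isIntegral_trans x h2

theorem LG_eq {A : ℕ → Ω} (h0 : A 0 = 1) (N : ℕ) {Γ : Fin N → Ω}
    (hΓ : PG A N = ∏ i, (X - C (Γ i))) : LG A N = ∏ i, (1 - C (Γ i) * X) := by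
  rw [← PG_reverse h0 N, hΓ, reverse_roots]

end

theorem LG_ne {A : ℕ → ℂ} (h0 : A 0 = 1) (N : ℕ) : LG A N ≠ 0 := by
  intro h
  have h5 := coeff_LG A N 0
  rw [if_pos (by omega), h0, h, coeff_zero] at h5
  exact zero_ne_one h5

/-- the power sums -/
theorem spec_of_roots {A : ℕ → ℂ} (h0 : A 0 = 1) (N : ℕ) {S : ℕ → ℂ} (hS : HID (LG A N) S)
    {Γ : Fin N → ℂ} (hΓ : PG A N = ∏ i, (X - C (Γ i))) {m : ℕ} (hm : 0 < m) :
    S m = -∑ i, Γ i ^ m := by
  have h1 : HID (LG A N) (fun m => -∑ i, Γ i ^ m) := by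
    rw [LG_eq h0 N hΓ]
    exact HID_roots Γ
  exact HID_unique (LG_ne h0 N) hS h1 hm

theorem roots_of_spec {A : ℕ → ℂ} (h0 : A 0 = 1) (N : ℕ) {S : ℕ → ℂ} (hS : HID (LG A N) S)
    (Γ : Fin N → ℂ) (hΓ : ∀ m, 1 ≤ m → S m = -∑ i, Γ i ^ m) : PG A N = ∏ i, (X - C (Γ i)) := by
  have hnd : (∏ i, (X - C (Γ i))).natDegree = N := by
    rw [natDegree_prod_of_monic _ _ fun i _ => monic_X_sub_C _]
    simp
  have h1 : LG A N = ∏ i, (1 - C (Γ i) * X) := by
    refine HID_determines hS (HID_roots Γ) ?_ hΓ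
    rw [coeff_LG, if_pos (by omega), h0, coeff_zero_prod]
    symm
    exact Finset.prod_eq_one fun i _ => by simp
  ext n
  have h2 := PG_reverse h0 N
  rw [h1, ← reverse_roots] at h2
  have h3 := congrArg (fun P => P.coeff (revAt N n)) h2
  simp only [coeff_reverse] at h3
  rw [hnd, (PG_monic h0 N).2, revAt_invol] at h3
  exact h3

/-- purity -/
theorem purity {A : ℕ → ℂ} (h0 : A 0 = 1) (N : ℕ) {S : ℕ → ℂ} (hS : HID (LG A N) S)
    {Γ : Fin N → ℂ} (hΓ : PG A N = ∏ i, (X - C (Γ i))) {q : ℝ} (hq0 : 0 < q)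
    (hb : ∃ K : ℝ, 0 ≤ K ∧ ∀ m : ℕ, 1 ≤ m → ‖S m‖ ≤ K * √q ^ m)
    (htop : ‖A N‖ ^ 2 = q ^ N) (i : Fin N) : ‖Γ i‖ ^ 2 = q := by
  have hL := LG_eq h0 N hΓ
  have hnd : (∏ i, (X - C (Γ i))).natDegree = N := by
    rw [natDegree_prod_of_monic _ _ fun i _ => monic_X_sub_C _]
    simp
  have htop' : ∏ i, ‖Γ i‖ ^ 2 = q ^ N := by
    have h1 := coeff_LG A N N
    rw [if_pos (by omega), hL, ← reverse_roots, coeff_reverse, hnd, revAt_le le_rfl,
      Nat.sub_self, coeff_zero_prod] at h1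
    rw [Finset.prod_pow, ← norm_prod, ← htop, ← h1]
    congr 1
    rw [norm_prod, norm_prod]
    refine Finset.prod_congr rfl fun i _ => ?_
    simp
  have hne : ∀ i, Γ i ≠ 0 := by
    intro i hi
    rw [Finset.prod_eq_zero (Finset.mem_univ i) (by rw [hi]; simp)] at htop'
    exact (pow_pos hq0 N).ne htop'
  obtain ⟨K, hK0, hK⟩ := hb
  have hle : ∀ i, ‖Γ i‖ ^ 2 ≤ q := by
    intro i
    have h1 : (LG A N).eval (Γ i)⁻¹ = 0 := by
      rw [hL, eval_prod]
      refine Finset.prod_eq_zero (Finset.mem_univ i) ?_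
      simp [mul_inv_cancel₀ (hne i)]
    have h2 := root_norm (LG A N) (by rw [coeff_LG, if_pos (by omega), h0]) S (√q) K
      (Real.sqrt_pos.2 hq0) hK0 hK hS _ h1
    have h3 : 0 < ‖Γ i‖ := norm_pos_iff.2 (hne i)
    rw [norm_inv, ← div_eq_mul_inv, one_le_div h3] at h2
    calc ‖Γ i‖ ^ 2 ≤ √q ^ 2 := by
          apply pow_le_pow_left₀ h3.le h2
      _ = q := Real.sq_sqrt hq0.le
  by_contra hcon
  have hlt : ‖Γ i‖ ^ 2 < q := lt_of_le_of_ne (hle i) hcon
  have h1 : ∏ i, ‖Γ i‖ ^ 2 < ∏ _i : Fin N, q := by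
    refine Finset.prod_lt_prod (fun i _ => pow_pos (norm_pos_iff.2 (hne i)) 2) (fun i _ => hle i)
      ⟨i, Finset.mem_univ _, hlt⟩
  rw [htop'] at h1
  simp at h1

end Pool.Agent.H856.WE
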