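import Pool.Graph.R_seed8.TH194.SP.WeilLin

/-! # The top coefficient of the L-function of a product of characters of linear polynomials: statement -/

set_option autoImplicit false

open Polynomial

namespace Pool.Agent.H856.WE

open Pool.Agent.H341R2.Sharp

/-- TOP: the sum of `χ (∏ h (a) ^ c_a)` over the monic polynomials `h` of degree `#J - 1` has the absolute
value `q ^ ((#J - 1) / 2)` -/
def S_TOP : Prop :=
  ∀ (F : Type) [Field F] [Fintype F] [DecidableEq F] (χ : MulChar F ℂ) (J : Finset F) (c : F → ℕ),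
    J.Nonempty → (∀ a ∈ J, χ ^ c a ≠ 1) → χ ^ (∑ a ∈ J, c a) ≠ 1 →
    ‖∑ h ∈ Mon F (J.card - 1), χ (∏ a ∈ J, h.eval a ^ c a)‖ ^ 2 =
      (Fintype.card F : ℝ) ^ (J.card - 1)

end Pool.Agent.H856.WE
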