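import Pool.Agent.H856.WE.Gen
import Pool.Agent.H856.WE.Top

/-! # The L-functions of the curves `y ^ ℓ = ∏ (x - a) ^ (c_a)` -/

set_option autoImplicit false
set_option linter.all false
set_option linter.unusedSectionVars false

open Polynomial

namespace Pool.Agent.H856.WE

open Pool.Agent.H341R2.Sharp (Mon mem_Mon Mon_zero)
open Pool.Agent.H498R2.Kl (HID)
open Pool.Agent.H435R3.Weil (lamPR lamPR_one lamPR_mul AL AL_zero TL TL_char n_mul_AL T_bound exists_r)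
open Pool.Agent.TH194.SP (PJ PJ_monic lam_PJ AL_PJ_zero PJ_cop)

section

variable {k : Type} [Field k] [Fintype k] [DecidableEq k] {R : Type} [CommRing R]

/-- the coefficients of the L-function -/
noncomputable def AK (χ : MulChar k R) (J : Finset k) (c : k → ℕ) (n : ℕ) : R :=
  ∑ h ∈ Mon k n, χ ((-1) ^ (n * ∑ a ∈ J, c a)) * χ (∏ a ∈ J, h.eval a ^ c a)

theorem AK_zero (χ : MulChar k R) (J : Finset k) (c : k → ℕ) : AK χ J c 0 = 1 := by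
  unfold AK
  rw [Mon_zero, Finset.sum_singleton]
  simp

theorem AK_eq_AL (χ : MulChar k ℂ) (J : Finset k) (c : k → ℕ) (n : ℕ) :
    AK χ J c n = AL (lamPR χ (PJ J c) 1) n := by
  unfold AK AL
  refine Finset.sum_congr rfl fun h hh => ?_
  rw [mem_Mon] at hh
  rw [lam_PJ, hh.2]

theorem AK_integral {ℓ : ℕ} (hℓ : ℓ ≠ 0) (χ : MulChar k R) (hχ : χ ^ ℓ = 1) (J : Finset k)
    (c : k → ℕ) (n : ℕ) : IsIntegral ℤ (AK χ J c n) := by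
  have h1 : ∀ x : k, IsIntegral ℤ (χ x) := by
    intro x
    by_cases hx : IsUnit x
    · have h2 : (χ x) ^ ℓ = 1 := by
        rw [← MulChar.pow_apply' χ hℓ, hχ, MulChar.one_apply hx]
      refine ⟨X ^ ℓ - 1, monic_X_pow_sub_C 1 hℓ, ?_⟩
      simp [h2]
    · rw [χ.map_nonunit hx]
      exact isIntegral_zero
  unfold AK
  exact IsIntegral.sum _ fun h _ => (h1 _).mul (h1 _)

theorem AK_map {R' : Type} [CommRing R'] (φ : R →+* R') (χ : MulChar k R) (χ' : MulChar k R')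
    (h : ∀ x, φ (χ x) = χ' x) (J : Finset k) (c : k → ℕ) (n : ℕ) :
    φ (AK χ J c n) = AK χ' J c n := by
  unfold AK
  rw [map_sum]
  refine Finset.sum_congr rfl fun g _ => ?_
  rw [map_mul, h, h]

end

section

variable {k : Type} [Field k] [Fintype k] [DecidableEq k]

theorem exists_r' {ℓ : ℕ} (hℓ : ℓ.Prime) (χ : MulChar k ℂ) (hχ1 : χ ≠ 1) (hχ : χ ^ ℓ = 1)
    (J : Finset k) (c : k → ℕ) (hJ : J.Nonempty) (hc : ∀ a ∈ J, ¬ ℓ ∣ c a) :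
    ℓ ∣ Fintype.card k - 1 ∧ ∃ a ∈ J, ¬ ℓ ∣ c a := by
  obtain ⟨a, ha⟩ := hJ
  refine ⟨?_, a, ha, hc a ha⟩
  have h1 : orderOf χ = ℓ := by
    haveI : Fact ℓ.Prime := ⟨hℓ⟩
    exact orderOf_eq_prime hχ hχ1
  rw [← h1, orderOf_dvd_iff_pow_eq_one]
  ext u
  rw [MulChar.pow_apply_coe, MulChar.one_apply_coe, ← map_pow, ← Units.val_pow_eq_pow_val,
    ← Fintype.card_units, pow_card_eq_one]
  simp

theorem HID_AK {ℓ : ℕ} (hℓ : ℓ.Prime) (χ : MulChar k ℂ) (hχ1 : χ ≠ 1) (hχ : χ ^ ℓ = 1)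
    (J : Finset k) (c : k → ℕ) (hJ : J.Nonempty) (hc : ∀ a ∈ J, ¬ ℓ ∣ c a) :
    HID (LG (AK χ J c) (J.card - 1)) (TL (lamPR χ (PJ J c) 1)) := by
  have hJ0 : 0 < J.card := Finset.card_pos.2 hJ
  obtain ⟨hF, a, ha, hca⟩ := exists_r' hℓ χ hχ1 hχ J c hJ hc
  obtain ⟨r, hr, hev, hr0, hr1⟩ := exists_r ℓ hℓ.two_le hF χ hχ1 hχ (PJ J c) 1 (PJ_monic J c)
    monic_one (PJ_cop ℓ hℓ J c ha hca)
  have hcpos : ∀ a ∈ J, 0 < c a := by
    intro a ha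
    rcases Nat.eq_zero_or_pos (c a) with h | h
    · exact absurd (h ▸ dvd_zero ℓ) (hc a ha)
    · exact h
  have hcoef : ∀ n, (LG (AK χ J c) (J.card - 1)).coeff n = AL (lamPR χ (PJ J c) 1) n := by
    intro n
    rw [coeff_LG, AK_eq_AL]
    split_ifs with h
    · rfl
    · rw [AL_PJ_zero χ J c hcpos r hr hev hr0 hr1 n (by omega)]
  intro n
  rw [hcoef]
  have := n_mul_AL (lamPR χ (PJ J c) 1) (lamPR_one χ (PJ J c) 1)
    (fun g h hg hh => lamPR_mul χ (PJ J c) 1 g h hg hh) n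
  rw [this]
  refine Finset.sum_congr rfl fun m _ => ?_
  rw [hcoef]

theorem TL_eq (χ : MulChar k ℂ) (J : Finset k) (c : k → ℕ) (E : Type) [Field E] [Fintype E]
    [Algebra k E] : TL (lamPR χ (PJ J c) 1) (Module.finrank k E) =
      ∑ x : E, χ (Algebra.norm k (aeval x (∏ a ∈ J, (X - C a) ^ c a))) := by
  classical
  rw [TL_char (E := E)]
  refine Finset.sum_congr rfl fun x _ => ?_
  simp [PJ]

theorem TL_bound {ℓ : ℕ} (hℓ : ℓ.Prime) (χ : MulChar k ℂ) (hχ1 : χ ≠ 1) (hχ : χ ^ ℓ = 1)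
    (J : Finset k) (c : k → ℕ) (hJ : J.Nonempty) (hc : ∀ a ∈ J, ¬ ℓ ∣ c a) :
    ∃ K : ℝ, 0 ≤ K ∧ ∀ m : ℕ, 1 ≤ m →
      ‖TL (lamPR χ (PJ J c) 1) m‖ ≤ K * √(Fintype.card k : ℝ) ^ m := by
  obtain ⟨hF, a, ha, hca⟩ := exists_r' hℓ χ hχ1 hχ J c hJ hc
  obtain ⟨K, hK0, hK⟩ := T_bound ℓ hℓ.two_le hF χ hχ1 hχ (PJ J c) 1 (PJ_monic J c) monic_one
    (PJ_cop ℓ hℓ J c ha hca)
  exact ⟨K, hK0, fun m hm => (hK m hm).1⟩

theorem AK_top (hT : S_TOP) {ℓ : ℕ} (hℓ : ℓ.Prime) (χ : MulChar k ℂ) (hχ1 : χ ≠ 1)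
    (hχ : χ ^ ℓ = 1) (J : Finset k) (c : k → ℕ) (hJ : J.Nonempty) (hc : ∀ a ∈ J, ¬ ℓ ∣ c a)
    (hs : ¬ ℓ ∣ ∑ a ∈ J, c a) :
    ‖AK χ J c (J.card - 1)‖ ^ 2 = (Fintype.card k : ℝ) ^ (J.card - 1) := by
  have h1 : orderOf χ = ℓ := by
    haveI : Fact ℓ.Prime := ⟨hℓ⟩
    exact orderOf_eq_prime hχ hχ1
  have h2 : ∀ n : ℕ, ¬ ℓ ∣ n → χ ^ n ≠ 1 := by
    intro n hn h
    exact hn (h1 ▸ orderOf_dvd_of_pow_eq_one h)
  rw [← hT k χ J c hJ (fun a ha => h2 _ (hc a ha)) (h2 _ hs)]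
  unfold AK
  rw [← Finset.mul_sum, norm_mul]
  have h3 : ‖χ ((-1) ^ ((J.card - 1) * ∑ a ∈ J, c a))‖ = 1 := by
    have hu : (-1 : k) ^ ((J.card - 1) * ∑ a ∈ J, c a) ≠ 0 := pow_ne_zero _ (by norm_num)
    have h4 : (χ ((-1) ^ ((J.card - 1) * ∑ a ∈ J, c a))) ^ ℓ = 1 := by
      rw [← MulChar.pow_apply' χ hℓ.ne_zero, hχ, MulChar.one_apply (isUnit_iff_ne_zero.2 hu)]
    exact Complex.norm_eq_one_of_pow_eq_one h4 hℓ.ne_zero
  rw [h3, one_mul]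

end

end Pool.Agent.H856.WE
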