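import Pool.Agent.H856.WE.KumMain

/-! # The Tate classes on the powers of the Jacobians of cyclic covers of the line -/

set_option autoImplicit false

open Polynomial

namespace Pool.Agent.H856.WE

open Pool.Agent.H856.WD
open Pool.Agent.H498R2.Kl (HID)
open Pool.Agent.H435R3.Weil (lamPR TL)
open Pool.Agent.TH194.SP (PJ)

/-- `Γ` is the spectrum of the Frobenius on the first cohomology of the curve `y ^ ℓ = f (x)`, where the
`Γ (t, i)` are the eigenvalues on the part that belongs to the character `χ ^ t` -/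
def IsKummerSpectrum (ℓ : ℕ) {k : Type} [Field k] (χ : MulChar k ℂ) (f : k[X]) {N : ℕ}
    (Γ : Ch ℓ × Fin N → ℂ) : Prop :=
  ∀ (t : Ch ℓ) (L : Type) [Field L] [Fintype L] [Algebra k L],
    ∑ x : L, (χ ^ (t : ZMod ℓ).val) (Algebra.norm k (aeval x f)) =
      -∑ i, Γ (t, i) ^ Module.finrank k L

/-- the polynomial with the roots `a` in `J`, with the multiplicities `c a` -/
noncomputable def branchPoly {k : Type} [Field k] (J : Finset k) (c : k → ℕ) : k[X] :=
  ∏ a ∈ J, (X - C a) ^ c a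

theorem exists_kummer (ℓ : ℕ) [Fact ℓ.Prime] (k : Type) [Field k] [Finite k] (χ : MulChar k ℂ)
    (hχ : orderOf χ = ℓ) (J : Finset k) (c : k → ℕ) (hJ : J.Nonempty) (hc : ∀ a ∈ J, ¬ ℓ ∣ c a) :
    ∃ Γ : Ch ℓ × Fin (J.card - 1) → ℂ, IsKummerSpectrum ℓ χ (branchPoly J c) Γ := by
  classical
  let _ : Fintype k := Fintype.ofFinite k
  have hl : ℓ.Prime := Fact.out
  have h1 : χ ^ ℓ = 1 := hχ ▸ pow_orderOf_eq_one χ
  have h2 : χ ≠ 1 := by
    rintro rfl
    rw [orderOf_one] at hχ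
    exact hl.one_lt.ne hχ
  choose γ hγ using fun t : Ch ℓ =>
    PG_roots (AK_zero (χ ^ (t : ZMod ℓ).val) J c) (J.card - 1)
  refine ⟨fun x => γ x.1 x.2, ?_⟩
  intro t L _ _ _
  obtain ⟨h5, h6⟩ := pow_ch h1 h2 t
  rw [branchPoly, ← TL_eq]
  exact spec_of_roots (AK_zero _ J c) (J.card - 1) (HID_AK hl _ h6 h5 J c hJ hc) (hγ t)
    Module.finrank_pos

theorem kummer_main (p ℓ : ℕ) [Fact p.Prime] [Fact ℓ.Prime] (hgen : orderOf (p : ZMod ℓ) = ℓ - 1)
    (k : Type) [Field k] [Finite k] [CharP k p] (χ : MulChar k ℂ) (hχ : orderOf χ = ℓ)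
    (J : Finset k) (c : k → ℕ) (h2 : 2 ≤ J.card) (h4 : J.card ≤ 4)
    (hc : ∀ a ∈ J, ¬ ℓ ∣ c a) (hs : ¬ ℓ ∣ ∑ a ∈ J, c a) (Γ : Ch ℓ × Fin (J.card - 1) → ℂ)
    (hΓ : IsKummerSpectrum ℓ χ (branchPoly J c) Γ) :
    (∀ x, ‖Γ x‖ ^ 2 = Nat.card k) ∧ DetRel (Nat.card k : ℂ) Γ ∧
      (CaseA (Nat.card k : ℂ) Γ ∨ CaseB (Nat.card k : ℂ) Γ) := by
  classical
  let _ : Fintype k := Fintype.ofFinite k
  have hl : ℓ.Prime := Fact.out
  have hJ : J.Nonempty := Finset.card_pos.1 (by omega)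
  have h1 : χ ^ ℓ = 1 := hχ ▸ pow_orderOf_eq_one χ
  have h3 : χ ≠ 1 := by
    rintro rfl
    rw [orderOf_one] at hχ
    exact hl.one_lt.ne hχ
  rw [Nat.card_eq_fintype_card]
  refine kum_main hgen χ h1 h3 J c h2 h4 hc hs Γ ?_
  intro t
  obtain ⟨h5, h6⟩ := pow_ch h1 h3 t
  refine roots_of_spec (AK_zero _ J c) (J.card - 1) (HID_AK hl _ h6 h5 J c hJ hc)
    (fun i => Γ (t, i)) ?_
  intro m hm
  have : NeZero m := ⟨by omega⟩
  let E := FiniteField.Extension k p m
  let _ : Fintype E := Fintype.ofFinite E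
  have hfr : Module.finrank k E = m := FiniteField.finrank_extension k p m
  have h7 := hΓ t E
  rw [branchPoly, ← TL_eq, hfr] at h7
  exact h7

/-- Lagrange: a map from the power of the curve to a variety of Fermat type -/
theorem lagrange {k : Type} [Field k] [DecidableEq k] (J : Finset k) (hJ : J.Nonempty) (K : Type)
    [Field K] [Algebra k K] (x : Fin (J.card - 1) → K) :
    ∑ a ∈ J, (∏ b ∈ J.erase a, (algebraMap k K a - algebraMap k K b))⁻¹ *
      ∏ i, (algebraMap k K a - x i) = 1 := by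
  have hJ0 : 0 < J.card := Finset.card_pos.2 hJ
  have hm : (∏ i, (X - C (x i))).Monic := monic_prod_of_monic _ _ fun i _ => monic_X_sub_C _
  have hnd : (∏ i, (X - C (x i))).natDegree = J.card - 1 := by
    rw [natDegree_prod_of_monic _ _ fun i _ => monic_X_sub_C _]
    simp
  have h1 := Lagrange.leadingCoeff_eq_sum (s := J) (v := fun a => algebraMap k K a)
    (P := ∏ i, (X - C (x i))) (fun a _ b _ h => (algebraMap k K).injective h)
    (by
      rw [degree_eq_natDegree hm.ne_zero, hnd]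
      exact_mod_cast (by omega : J.card = J.card - 1 + 1))
  rw [hm.leadingCoeff] at h1
  rw [h1]
  refine Finset.sum_congr rfl fun a _ => ?_
  rw [eval_prod, div_eq_mul_inv, mul_comm]
  simp

end Pool.Agent.H856.WE
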