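import Pool.Agent.H856.WE.Stm
import Pool.Agent.H856.WD.PlaProof

/-! # A place above `p` for a number whose minimal polynomial is irreducible over `ℚ_p` -/

set_option autoImplicit false

open Polynomial

namespace Pool.Agent.H856.WE

open Pool.Agent.H856.WD

namespace Pla2

variable (p : ℕ) [hp : Fact p.Prime]

lemma minpoly_iota {θ θ' : AlgebraicClosure ℚ}
    (hirr : Irreducible ((minpoly ℚ θ).map (algebraMap ℚ ℚ_[p])))
    (h' : aeval θ' (minpoly ℚ θ) = 0) :
    minpoly ℚ_[p] (iota p θ') = (minpoly ℚ θ).map (algebraMap ℚ ℚ_[p]) := by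
  have hint : IsIntegral ℚ θ := Algebra.IsIntegral.isIntegral θ
  symm
  refine minpoly.eq_of_irreducible_of_monic hirr ?_ ((minpoly.monic hint).map _)
  rw [aeval_map_algebraMap, aeval_algHom_apply, h', map_zero]

lemma exists_d2 {θ θ' : AlgebraicClosure ℚ}
    (hirr : Irreducible ((minpoly ℚ θ).map (algebraMap ℚ ℚ_[p])))
    (h' : aeval θ' (minpoly ℚ θ) = 0) :
    ∃ d : AlgebraicClosure ℚ ≃+* AlgebraicClosure ℚ, d θ = θ' ∧ ∀ x, val p (d x) = val p x := by
  have h1 : IsConjRoot ℚ_[p] (iota p θ') (iota p θ) := by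
    rw [isConjRoot_def, minpoly_iota p hirr h', minpoly_iota p hirr (minpoly.aeval ℚ θ)]
  obtain ⟨δ, hδ⟩ := isConjRoot_iff_exists_algEquiv.1 h1
  obtain ⟨d, hd⟩ := exists_restr p δ
  refine ⟨d, ?_, fun x => ?_⟩
  · have h2 : iota p (d θ) = iota p θ' := by rw [hd, hδ]
    exact (iota p).injective h2
  · rw [val, val, hd]
    congr 2
    exact (spectralNorm_eq_of_equiv δ (iota p x)).symm

lemma conj_root (θ : AlgebraicClosure ℚ) (g : AlgebraicClosure ℚ ≃+* AlgebraicClosure ℚ) :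
    aeval (g θ) (minpoly ℚ θ) = 0 := by
  have h1 := aeval_algHom_apply (RingHom.toRatAlgHom (g : AlgebraicClosure ℚ →+* AlgebraicClosure ℚ))
    θ (minpoly ℚ θ)
  rw [minpoly.aeval, map_zero] at h1
  exact h1

/-- All conjugates are units at the place. -/
lemma conj_norm2 {θ : AlgebraicClosure ℚ}
    (hirr : Irreducible ((minpoly ℚ θ).map (algebraMap ℚ ℚ_[p]))) (x : AlgebraicClosure ℚ)
    (hx : x ≠ 0) (h : ∀ σ : AlgebraicClosure ℚ ≃+* AlgebraicClosure ℚ, σ θ = θ → val p (σ x) = 0)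
    (g : AlgebraicClosure ℚ ≃+* AlgebraicClosure ℚ) : ‖iota p (g x)‖ = 1 := by
  obtain ⟨d, hd, hv⟩ := exists_d2 p hirr (conj_root θ g)
  have h2 := h (g.trans d.symm) (by
    show d.symm (g θ) = θ
    rw [← hd, RingEquiv.symm_apply_apply])
  have h3 : val p (g x) = 0 := by
    rw [← h2, ← hv ((g.trans d.symm) x)]
    congr 1
    show g x = d (d.symm (g x))
    rw [RingEquiv.apply_symm_apply]
  exact norm_eq_one p ((map_ne_zero g).2 hx) h3

end Pla2

theorem pla2 : S_PLA2 := by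
  intro p hp θ hirr
  refine ⟨val p, fun x y hx hy => val_mul p x y hx hy, fun θ' h' => Pla2.exists_d2 p hirr h', ?_⟩
  intro x a hx hi h1 h2
  exact kron x (integral p x a hi (Pla2.conj_norm2 p hirr x hx h1)) h2

end Pool.Agent.H856.WE
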