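import Pool.Agent.H856.WE.Top

/-! # Proof of `S_TOP` (helper370) -/

set_option autoImplicit false

open Polynomial

namespace Pool.Agent.H856.WE

open Pool.Agent.H341R2.Sharp

namespace TopP

variable {F : Type} [Field F] [Fintype F] [DecidableEq F]

omit [DecidableEq F] in
/-- the square of the absolute value of a Gauss sum -/
theorem norm_gauss_sq (θ : MulChar F ℂ) (hθ : θ ≠ 1) (ψ : AddChar F ℂ) (hψ : ψ.IsPrimitive) :
    ‖gaussSum θ ψ‖ ^ 2 = (Fintype.card F : ℝ) := by
  have h1 := gaussSum_mul_gaussSum_eq_card hθ hψ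
  rw [← star_gaussSum_eq] at h1
  have h2 : ((‖gaussSum θ ψ‖ ^ 2 : ℝ) : ℂ) = ((Fintype.card F : ℝ) : ℂ) := by
    rw [← h1 |>.trans (by simp : ((Fintype.card F : ℕ) : ℂ) = ((Fintype.card F : ℝ) : ℂ))]
    rw [Complex.ofReal_pow]
    exact (Complex.mul_conj' _).symm
  exact_mod_cast h2

theorem prim_shift (ψ : AddChar F ℂ) (hψ : ψ.IsPrimitive) (w : F) (hw : w ≠ 0) :
    (ψ.mulShift w).IsPrimitive := by
  intro a ha
  rw [AddChar.mulShift_mulShift]
  exact hψ (mul_ne_zero hw ha)

/-- the sum over the hyperplane -/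
noncomputable def Js (J : Finset F) (θ : J → MulChar F ℂ) (w : J → F) (s : F) : ℂ :=
  ∑ u : J → F with ∑ a, w a * u a = s, ∏ a, θ a (u a)

theorem Js_smul (J : Finset F) (θ : J → MulChar F ℂ) (w : J → F) (s t : F) (ht : t ≠ 0) :
    Js J θ w (t * s) = (∏ a, θ a) t * Js J θ w s := by
  unfold Js
  rw [Finset.mul_sum]
  symm
  refine Finset.sum_bij' (i := fun u _ => fun a => t * u a) (j := fun u _ => fun a => t⁻¹ * u a)
    ?_ ?_ ?_ ?_ ?_
  · intro u hu
    rw [Finset.mem_filter] at hu ⊢
    refine ⟨Finset.mem_univ _, ?_⟩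
    rw [← hu.2, Finset.mul_sum]
    refine Finset.sum_congr rfl fun a _ => by ring
  · intro u hu
    rw [Finset.mem_filter] at hu ⊢
    refine ⟨Finset.mem_univ _, ?_⟩
    have h1 : ∑ a, w a * (t⁻¹ * u a) = t⁻¹ * ∑ a, w a * u a := by
      rw [Finset.mul_sum]
      refine Finset.sum_congr rfl fun a _ => by ring
    rw [h1, hu.2, ← mul_assoc, inv_mul_cancel₀ ht, one_mul]
  · intro u _
    funext a
    rw [← mul_assoc, inv_mul_cancel₀ ht, one_mul]
  · intro u _
    funext a
    rw [← mul_assoc, mul_inv_cancel₀ ht, one_mul]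
  · intro u _
    have h1 : (∏ a, θ a) t = ∏ a, θ a t := by
      have : ∀ S : Finset J, (∏ a ∈ S, θ a) t = ∏ a ∈ S, θ a t := by
        intro S
        induction S using Finset.induction_on with
        | empty =>
          rw [Finset.prod_empty, Finset.prod_empty]
          exact MulChar.one_apply (isUnit_iff_ne_zero.2 ht)
        | insert a S ha ih =>
          rw [Finset.prod_insert ha, Finset.prod_insert ha, MulChar.mul_apply, ih]
      exact this _
    rw [h1, ← Finset.prod_mul_distrib]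
    refine Finset.prod_congr rfl fun a _ => ?_
    rw [map_mul]

theorem Js_eq (J : Finset F) (θ : J → MulChar F ℂ) (w : J → F) (hθ : ∏ a, θ a ≠ 1) (s : F) :
    Js J θ w s = (∏ a, θ a) s * Js J θ w 1 := by
  by_cases hs : s = 0
  · subst hs
    obtain ⟨t, ht⟩ := MulChar.ne_one_iff.1 hθ
    have h1 := Js_smul J θ w 0 t.1 t.ne_zero
    rw [mul_zero] at h1
    have h2 : ((∏ a, θ a) t.1 - 1) * Js J θ w 0 = 0 := by
      rw [sub_mul, one_mul, ← h1, sub_self]
    rcases mul_eq_zero.1 h2 with h3 | h3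
    · exact absurd (sub_eq_zero.1 h3) ht
    · rw [h3, MulChar.map_zero, zero_mul]
  · have h1 := Js_smul J θ w 1 s hs
    rwa [mul_one] at h1

theorem gauss_prod (J : Finset F) (θ : J → MulChar F ℂ) (w : J → F) (hθ : ∏ a, θ a ≠ 1)
    (ψ : AddChar F ℂ) :
    ∏ a, gaussSum (θ a) (ψ.mulShift (w a)) = Js J θ w 1 * gaussSum (∏ a, θ a) ψ := by
  have h1 : ∏ a, gaussSum (θ a) (ψ.mulShift (w a)) =
      ∑ u : J → F, (∏ a, θ a (u a)) * ψ (∑ a, w a * u a) := by
    unfold gaussSum
    rw [Fintype.prod_sum]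
    refine Finset.sum_congr rfl fun u _ => ?_
    rw [Finset.prod_mul_distrib]
    congr 1
    have h2 : ∀ S : Finset J, ∏ a ∈ S, ψ.mulShift (w a) (u a) = ψ (∑ a ∈ S, w a * u a) := by
      intro S
      induction S using Finset.induction_on with
      | empty => simp
      | insert a S ha ih =>
        rw [Finset.prod_insert ha, Finset.sum_insert ha, AddChar.map_add_eq_mul, ih,
          AddChar.mulShift_apply]
    exact h2 _
  rw [h1, ← Finset.sum_fiberwise_of_maps_to (t := Finset.univ)
    (g := fun u : J → F => ∑ a, w a * u a) (fun _ _ => Finset.mem_univ _)]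
  unfold gaussSum
  rw [Finset.mul_sum]
  refine Finset.sum_congr rfl fun s _ => ?_
  have h3 : ∑ u : J → F with ∑ a, w a * u a = s, (∏ a, θ a (u a)) * ψ (∑ a, w a * u a) =
      Js J θ w s * ψ s := by
    unfold Js
    rw [Finset.sum_mul]
    refine Finset.sum_congr rfl fun u hu => ?_
    rw [(Finset.mem_filter.1 hu).2]
  rw [h3, Js_eq J θ w hθ]
  ring

/-- the weights of Lagrange interpolation -/
noncomputable def W (J : Finset F) (a : J) : F := (∏ b ∈ J.erase a.1, (a.1 - b))⁻¹

theorem W_ne (J : Finset F) (a : J) : W J a ≠ 0 := by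
  unfold W
  apply inv_ne_zero
  rw [Finset.prod_ne_zero_iff]
  intro b hb
  rw [Finset.mem_erase] at hb
  exact sub_ne_zero.2 (Ne.symm hb.1)

theorem coeff_top (J : Finset F) (h : F[X]) (hd : h.degree < J.card) :
    h.coeff (J.card - 1) = ∑ a : J, W J a * h.eval a.1 := by
  have h1 := Lagrange.coeff_eq_sum (s := J) (v := id) (Function.injective_id.injOn) hd
  rw [h1, ← Finset.sum_coe_sort]
  refine Finset.sum_congr rfl fun a _ => ?_
  unfold W
  rw [div_eq_mul_inv, mul_comm]
  rfl

theorem sum_Mon (χ : MulChar F ℂ) (J : Finset F) (c : F → ℕ) (hJ : J.Nonempty)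
    (hc : ∀ a ∈ J, χ ^ c a ≠ 1) :
    ∑ h ∈ Mon F (J.card - 1), χ (∏ a ∈ J, h.eval a ^ c a) =
      Js J (fun a => χ ^ c a.1) (W J) 1 := by
  classical
  have hcard : 0 < J.card := Finset.card_pos.2 hJ
  unfold Js
  have hlt : ∀ h ∈ Mon F (J.card - 1), h.degree < J.card := by
    intro h hh
    rw [mem_Mon] at hh
    rw [degree_eq_natDegree hh.1.ne_zero, hh.2]
    exact_mod_cast Nat.sub_lt hcard one_pos
  refine Finset.sum_bij (fun h _ => fun a : J => h.eval a.1) ?_ ?_ ?_ ?_
  · intro h hh
    rw [Finset.mem_filter]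
    refine ⟨Finset.mem_univ _, ?_⟩
    rw [← coeff_top J h (hlt h hh)]
    have h1 := hh
    rw [mem_Mon] at h1
    have h2 : h.coeff h.natDegree = 1 := h1.1
    rwa [h1.2] at h2
  · intro h hh h' hh' he
    refine eq_of_degrees_lt_of_eval_finset_eq J (hlt h hh) (hlt h' hh') fun a ha => ?_
    exact congrFun he ⟨a, ha⟩
  · intro u hu
    rw [Finset.mem_filter] at hu
    set r : F → F := fun a => if h : a ∈ J then u ⟨a, h⟩ else 0 with hr
    set P : F[X] := Lagrange.interpolate J id r with hP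
    have hPd : P.degree < J.card :=
      Lagrange.degree_interpolate_lt r (Function.injective_id.injOn)
    have hPe : ∀ a : J, P.eval a.1 = u a := by
      intro a
      have h1 := Lagrange.eval_interpolate_at_node (v := id) r
        (Function.injective_id.injOn) a.2
      rw [show P.eval a.1 = eval (id a.1) (Lagrange.interpolate J id r) from rfl, h1, hr]
      simp
    have hPc : P.coeff (J.card - 1) = 1 := by
      rw [coeff_top J P hPd, ← hu.2]
      refine Finset.sum_congr rfl fun a _ => ?_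
      rw [hPe]
    have hPn : P.natDegree = J.card - 1 := by
      apply le_antisymm
      · have h1 : P.natDegree < J.card := by
          by_cases h0 : P = 0
          · rw [h0, natDegree_zero]; exact hcard
          · exact (natDegree_lt_iff_degree_lt h0).2 hPd
        omega
      · apply le_natDegree_of_ne_zero
        rw [hPc]; exact one_ne_zero
    refine ⟨P, ?_, ?_⟩
    · rw [mem_Mon]
      refine ⟨?_, hPn⟩
      rw [Monic, leadingCoeff, hPn, hPc]
    · funext a
      exact hPe a
  · intro h hh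
    rw [map_prod, ← Finset.prod_coe_sort]
    refine Finset.prod_congr rfl fun a _ => ?_
    rw [map_pow]
    have h0 : c a.1 ≠ 0 := by
      intro h0
      apply hc a.1 a.2
      rw [h0, pow_zero]
    exact (MulChar.pow_apply' χ h0 _).symm

end TopP

theorem top : S_TOP := by
  intro F _ _ _ χ J c hJ hc hs
  have hcard : 0 < J.card := Finset.card_pos.2 hJ
  set ψ := AddChar.FiniteField.primitiveChar_to_Complex F
  have hψ : ψ.IsPrimitive := AddChar.FiniteField.primitiveChar_to_Complex_isPrimitive F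
  set θ : J → MulChar F ℂ := fun a => χ ^ c a.1 with hθ
  have hprod : ∏ a, θ a = χ ^ (∑ a ∈ J, c a) := by
    rw [← Finset.prod_pow_eq_pow_sum]
    exact Finset.prod_coe_sort J (fun a => χ ^ c a)
  have hne : ∏ a, θ a ≠ 1 := by rw [hprod]; exact hs
  have h1 := TopP.gauss_prod J θ (TopP.W J) hne ψ
  have h2 := congrArg (fun z => ‖z‖ ^ 2) h1
  simp only [norm_prod, norm_mul, mul_pow] at h2
  rw [← Finset.prod_pow, TopP.norm_gauss_sq _ hne ψ hψ] at h2
  have h3 : ∀ a ∈ (Finset.univ : Finset J),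
      ‖gaussSum (θ a) (ψ.mulShift (TopP.W J a))‖ ^ 2 = (Fintype.card F : ℝ) := by
    intro a _
    exact TopP.norm_gauss_sq _ (hc a.1 a.2) _ (TopP.prim_shift ψ hψ _ (TopP.W_ne J a))
  rw [Finset.prod_congr rfl h3, Finset.prod_const, Finset.card_univ, Fintype.card_coe] at h2
  rw [TopP.sum_Mon χ J c hJ hc]
  have hq : (Fintype.card F : ℝ) ≠ 0 := by
    exact_mod_cast Fintype.card_ne_zero
  have h4 : (Fintype.card F : ℝ) ^ J.card =
      (Fintype.card F : ℝ) ^ (J.card - 1) * (Fintype.card F : ℝ) := by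
    rw [← pow_succ, Nat.sub_add_cancel hcard]
  rw [h4] at h2
  exact (mul_right_cancel₀ hq h2).symm

end Pool.Agent.H856.WE
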