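import Pool.Agent.H856.WE.Kum
import Pool.Agent.H856.WE.TopProof
import Pool.Agent.H856.WE.Pla2Proof
import Pool.Agent.H856.WE.Glu2Proof
import Pool.Agent.H856.WD.ActProof

/-! # The spectra of the curves `y ^ ℓ = ∏ (x - a) ^ (c_a)`, `p` a primitive root modulo `ℓ` -/

set_option autoImplicit false
set_option linter.all false
set_option linter.unusedSectionVars false

open Polynomial

namespace Pool.Agent.H856.WE

open Pool.Agent.H856.WD
open Pool.Agent.H341R2.Sharp (Mon mem_Mon Mon_zero)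
open Pool.Agent.H498R2.Kl (HID)
open Pool.Agent.H435R3.Weil (lamPR TL)
open Pool.Agent.TH194.SP (PJ)

theorem cyc_irr (p ℓ : ℕ) [hp : Fact p.Prime] [hl : Fact ℓ.Prime] (hne : p ≠ ℓ)
    (h : orderOf (p : ZMod ℓ) = ℓ - 1) :
    Irreducible (cyclotomic ℓ ℚ_[p]) := by
  have hcop : p.Coprime ℓ := (Nat.coprime_primes hp.out hl.out).2 hne
  have hnd : ¬ p ∣ ℓ := fun h => hne ((Nat.prime_dvd_prime_iff_eq hp.out hl.out).1 h)
  have h1 : Irreducible (cyclotomic ℓ (ZMod p)) := by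
    refine ZMod.irreducible_of_dvd_cyclotomic_of_natDegree hnd dvd_rfl ?_
    rw [natDegree_cyclotomic, Nat.totient_prime hl.out]
    have h2 : orderOf (ZMod.unitOfCoprime p hcop) = orderOf (p : ZMod ℓ) := by
      rw [← orderOf_units, ZMod.coe_unitOfCoprime]
    rw [← h, ← h2]
  have h2 : Irreducible (cyclotomic ℓ ℤ_[p]) := by
    refine Monic.irreducible_of_irreducible_map (PadicInt.toZMod) _ (cyclotomic.monic ℓ _) ?_
    rw [map_cyclotomic]
    exact h1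
  have h3 := (Monic.irreducible_iff_irreducible_map_fraction_map (K := ℚ_[p])
    (cyclotomic.monic ℓ ℤ_[p])).1 h2
  rwa [map_cyclotomic] at h3

section

variable {ℓ : ℕ} [hl : Fact ℓ.Prime]

theorem val_ne (t : Ch ℓ) : (t : ZMod ℓ).val ≠ 0 := by
  intro h
  exact t.2 ((ZMod.val_eq_zero _).1 h)

theorem val_cop (t : Ch ℓ) : (t : ZMod ℓ).val.Coprime ℓ :=
  ZMod.val_coe_unit_coprime (Units.mk0 (t : ZMod ℓ) t.2)

theorem not_dvd_val (t : Ch ℓ) : ¬ ℓ ∣ (t : ZMod ℓ).val := by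
  intro h
  have h1 := (val_cop t).symm
  rw [hl.out.coprime_iff_not_dvd] at h1
  exact h1 h

theorem pow_ch {k R : Type} [Field k] [CommRing R] [IsDomain R] {χ : MulChar k R}
    (hχ : χ ^ ℓ = 1) (hχ1 : χ ≠ 1) (t : Ch ℓ) :
    (χ ^ (t : ZMod ℓ).val) ^ ℓ = 1 ∧ χ ^ (t : ZMod ℓ).val ≠ 1 := by
  refine ⟨by rw [← pow_mul, mul_comm, pow_mul, hχ, one_pow], ?_⟩
  intro h
  have h1 : orderOf χ = ℓ := orderOf_eq_prime hχ hχ1
  have h2 := orderOf_dvd_of_pow_eq_one h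
  rw [h1] at h2
  exact not_dvd_val t h2

theorem pow_val_add {M : Type} [Monoid M] {z : M} (hz : z ^ ℓ = 1) (t : ZMod ℓ) :
    z ^ (-t).val * z ^ t.val = 1 := by
  rw [← pow_add]
  have h1 : ((((-t).val + t.val : ℕ)) : ZMod ℓ) = 0 := by
    push_cast
    rw [ZMod.natCast_zmod_val, ZMod.natCast_zmod_val, neg_add_cancel]
  obtain ⟨n, hn⟩ := (ZMod.natCast_eq_zero_iff _ _).1 h1
  rw [hn, pow_mul, hz, one_pow]

end

section

variable {p ℓ : ℕ} [hp : Fact p.Prime] [hl : Fact ℓ.Prime] {k : Type} [Field k] [Fintype k]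
  [DecidableEq k] [CharP k p]

theorem kum_main (hgen : orderOf (p : ZMod ℓ) = ℓ - 1) (χ : MulChar k ℂ) (hχ : χ ^ ℓ = 1)
    (hχ1 : χ ≠ 1) (J : Finset k) (c : k → ℕ) (h2 : 2 ≤ J.card) (h4 : J.card ≤ 4)
    (hc : ∀ a ∈ J, ¬ ℓ ∣ c a) (hs : ¬ ℓ ∣ ∑ a ∈ J, c a) (Γ : Ch ℓ × Fin (J.card - 1) → ℂ)
    (hΓ : ∀ t : Ch ℓ, PG (AK (χ ^ (t : ZMod ℓ).val) J c) (J.card - 1) =
      ∏ i, (X - C (Γ (t, i)))) :
    (∀ x, ‖Γ x‖ ^ 2 = Fintype.card k) ∧ DetRel (Fintype.card k : ℂ) Γ ∧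
      (CaseA (Fintype.card k : ℂ) Γ ∨ CaseB (Fintype.card k : ℂ) Γ) := by
  have hJ : J.Nonempty := Finset.card_pos.1 (by omega)
  have hpk : (Fintype.card k : ℝ) ≠ 0 := by exact_mod_cast Fintype.card_ne_zero
  have hq0 : (0 : ℝ) < Fintype.card k := by exact_mod_cast Fintype.card_pos
  have hpur : ∀ (ψ : MulChar k ℂ), ψ ^ ℓ = 1 → ψ ≠ 1 → ∀ (t : Ch ℓ)
      (Γ' : Fin (J.card - 1) → ℂ),
      PG (AK (ψ ^ (t : ZMod ℓ).val) J c) (J.card - 1) = ∏ i, (X - C (Γ' i)) →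
      ∀ i, ‖Γ' i‖ ^ 2 = Fintype.card k := by
    intro ψ hψ hψ1 t Γ' hΓ' i
    obtain ⟨h5, h6⟩ := pow_ch hψ hψ1 t
    exact purity (AK_zero _ J c) (J.card - 1) (HID_AK hl.out _ h6 h5 J c hJ hc) hΓ' hq0
      (TL_bound hl.out _ h6 h5 J c hJ hc) (AK_top top hl.out _ h6 h5 J c hJ hc hs) i
  have hne : p ≠ ℓ := by
    rintro rfl
    have h1 : orderOf χ = p := orderOf_eq_prime hχ hχ1
    obtain ⟨h5, -⟩ := exists_r' hp.out χ hχ1 hχ J c hJ hc
    have h6 : (p : ℕ) ∣ Fintype.card k := by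
      obtain ⟨n, _, hn⟩ := FiniteField.card k p
      rw [hn]
      exact dvd_pow_self p n.ne_zero
    have h7 : 0 < Fintype.card k := Fintype.card_pos
    have h8 : p ∣ 1 := by
      have := (Nat.dvd_sub h6 h5)
      rwa [Nat.sub_sub_self h7] at this
    exact hp.out.one_lt.ne' (Nat.dvd_one.1 h8)
  obtain ⟨j⟩ : Nonempty (AlgebraicClosure ℚ →+* ℂ) := by
    haveI : Algebra.IsAlgebraic ℚ (AlgebraicClosure ℚ) := AlgebraicClosure.isAlgebraic ℚ
    exact ⟨(IsAlgClosed.lift : AlgebraicClosure ℚ →ₐ[ℚ] ℂ).toRingHom⟩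
  let Ω := AlgebraicClosure ℚ
  obtain ⟨ζ, hζ⟩ : ∃ ζ : Ω, IsPrimitiveRoot ζ ℓ := HasEnoughRootsOfUnity.exists_primitiveRoot Ω ℓ
  have hζj : IsPrimitiveRoot (j ζ) ℓ := hζ.map_of_injective j.injective
  -- the character with values in the algebraic numbers
  have hexχ : ∀ x : k, ∃ y : Ω, j y = χ x ∧ (IsUnit x → y ^ ℓ = 1) := by
    intro x
    by_cases hx : IsUnit x
    · have h5 : (χ x) ^ ℓ = 1 := by
        rw [← MulChar.pow_apply' χ hl.out.ne_zero, hχ, MulChar.one_apply hx]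
      obtain ⟨i, _, hi⟩ := hζj.eq_pow_of_pow_eq_one h5
      refine ⟨ζ ^ i, by rw [map_pow, hi], fun _ => ?_⟩
      rw [← pow_mul, mul_comm, pow_mul, hζ.pow_eq_one, one_pow]
    · exact ⟨0, by rw [map_zero, χ.map_nonunit hx], fun h => absurd h hx⟩
  choose f hf hf1 using hexχ
  let χΩ : MulChar k Ω :=
    { toFun := f
      map_one' := j.injective (by rw [hf, map_one, map_one])
      map_mul' := fun x y => j.injective (by rw [map_mul, hf, hf, hf, map_mul])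
      map_nonunit' := fun x hx => j.injective (by rw [hf, map_zero, χ.map_nonunit hx]) }
  have hjχ : ∀ x, j (χΩ x) = χ x := hf
  have hunit : ∀ x, IsUnit x → (χΩ x) ^ ℓ = 1 := hf1
  have hχΩ : χΩ ^ ℓ = 1 := by
    ext u
    rw [MulChar.pow_apply_coe, MulChar.one_apply_coe, hunit _ u.isUnit]
  have hχΩ1 : χΩ ≠ 1 := by
    intro h
    apply hχ1
    ext u
    rw [← hjχ, h, MulChar.one_apply_coe, MulChar.one_apply_coe, map_one]
  have hpowj : ∀ (t : Ch ℓ) (x : k), j ((χΩ ^ (t : ZMod ℓ).val) x) =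
      (χ ^ (t : ZMod ℓ).val) x := by
    intro t x
    rw [MulChar.pow_apply' _ (val_ne t), MulChar.pow_apply' _ (val_ne t), map_pow, hjχ]
  -- the roots
  have hPj : ∀ t : Ch ℓ, (PG (AK (χΩ ^ (t : ZMod ℓ).val) J c) (J.card - 1)).map j =
      PG (AK (χ ^ (t : ZMod ℓ).val) J c) (J.card - 1) := fun t =>
    PG_map j (AK_map j _ _ (hpowj t) J c) _
  have hex : ∀ x : Ch ℓ × Fin (J.card - 1), ∃ γ : Ω, j γ = Γ x := by
    rintro ⟨t, i⟩
    obtain ⟨δ, hδ⟩ := PG_roots (AK_zero (χΩ ^ (t : ZMod ℓ).val) J c) (J.card - 1)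
    have h1 : (PG (AK (χ ^ (t : ZMod ℓ).val) J c) (J.card - 1)).eval (Γ (t, i)) = 0 := by
      rw [hΓ, eval_prod]
      exact Finset.prod_eq_zero (Finset.mem_univ i) (by simp)
    rw [← hPj t, hδ, Polynomial.map_prod, eval_prod, Finset.prod_eq_zero_iff] at h1
    obtain ⟨i', _, h2⟩ := h1
    refine ⟨δ i', ?_⟩
    simp only [Polynomial.map_sub, map_X, map_C, eval_sub, eval_X, eval_C] at h2
    exact (sub_eq_zero.1 h2).symm
  choose γ hγj using hex
  have hγ : ∀ t : Ch ℓ, PG (AK (χΩ ^ (t : ZMod ℓ).val) J c) (J.card - 1) =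
      ∏ i, (X - C (γ (t, i))) := by
    intro t
    apply Polynomial.map_injective j j.injective
    rw [hPj, hΓ, Polynomial.map_prod]
    refine Finset.prod_congr rfl fun i _ => ?_
    simp [hγj]
  have hcard : ∃ a : ℕ, 0 < a ∧ (Fintype.card k : ℂ) = (p : ℂ) ^ a ∧
      (Fintype.card k : ℝ) = (p : ℝ) ^ a := by
    obtain ⟨n, _, hn⟩ := FiniteField.card k p
    refine ⟨n, n.pos, ?_, ?_⟩
    · rw [hn]; push_cast; rfl
    · rw [hn]; push_cast; rfl
  obtain ⟨a, ha, hc1, hc2⟩ := hcard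
  have hprim : ∀ t : Ch ℓ, IsPrimitiveRoot (ζ ^ (t : ZMod ℓ).val) ℓ := fun t =>
    hζ.pow_of_coprime _ (val_cop t)
  have hmin : ∀ t : Ch ℓ, minpoly ℚ (ζ ^ (t : ZMod ℓ).val) = cyclotomic ℓ ℚ := fun t =>
    (cyclotomic_eq_minpoly_rat (hprim t) hl.out.pos).symm
  haveI : Nonempty (Ch ℓ) := ⟨⟨1, one_ne_zero⟩⟩
  have hmain := glu2 act_main pla2 p a (J.card - 1) (Ch ℓ) (fun t => ζ ^ (t : ZMod ℓ).val)
    (fun t => ⟨-t.1, neg_ne_zero.2 t.2⟩)
    (fun t => PG (AK (χΩ ^ (t : ZMod ℓ).val) J c) (J.card - 1)) γ j ha (by omega) (by omega)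
    (by
      intro t t' h
      apply Subtype.ext
      apply ZMod.val_injective ℓ
      exact hζ.pow_inj (ZMod.val_lt _) (ZMod.val_lt _) h)
    (by
      intro t
      have h1 := hmin t
      show Irreducible ((minpoly ℚ (ζ ^ (t : ZMod ℓ).val)).map (algebraMap ℚ ℚ_[p]))
      rw [h1, map_cyclotomic]
      exact cyc_irr p ℓ hne hgen)
    (by
      intro t x
      show aeval x (minpoly ℚ (ζ ^ (t : ZMod ℓ).val)) = 0 ↔ ∃ t' : Ch ℓ, x = ζ ^ (t' : ZMod ℓ).val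
      rw [hmin t]
      have h1 : aeval x (cyclotomic ℓ ℚ) = 0 ↔ IsPrimitiveRoot x ℓ := by
        rw [aeval_def, ← eval_map, map_cyclotomic, ← IsRoot.def, isRoot_cyclotomic_iff]
      rw [h1]
      constructor
      · intro hx
        obtain ⟨i, hi, hix⟩ := hζ.eq_pow_of_pow_eq_one hx.pow_eq_one
        have hi0 : (i : ZMod ℓ) ≠ 0 := by
          intro h
          have h5 := (ZMod.natCast_eq_zero_iff _ _).1 h
          have h6 : i = 0 := Nat.eq_zero_of_dvd_of_lt h5 hi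
          rw [h6, pow_zero] at hix
          exact hx.ne_one hl.out.one_lt hix.symm
        refine ⟨⟨(i : ZMod ℓ), hi0⟩, ?_⟩
        show x = ζ ^ ((i : ZMod ℓ)).val
        rw [ZMod.val_natCast_of_lt hi, hix]
      · rintro ⟨t', rfl⟩
        exact hprim t')
    (by
      intro g t t' h
      obtain ⟨i, _, hi⟩ := (hprim t).eq_pow_of_pow_eq_one (hprim t').pow_eq_one
      show g (ζ ^ (t' : ZMod ℓ).val) = ζ ^ (t' : ZMod ℓ).val
      rw [← hi, map_pow]
      exact congrArg (· ^ i) h)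
    (by
      intro φ t
      show φ (ζ ^ (-(t : ZMod ℓ)).val) = (starRingEnd ℂ) (φ (ζ ^ (t : ZMod ℓ).val))
      have h1 : φ (ζ ^ (-(t : ZMod ℓ)).val) * φ (ζ ^ (t : ZMod ℓ).val) = 1 := by
        rw [← map_mul, pow_val_add hζ.pow_eq_one, map_one]
      have h3 : (φ (ζ ^ (t : ZMod ℓ).val)) ^ ℓ = 1 := by
        rw [← map_pow, (hprim t).pow_eq_one, map_one]
      have h5 : ‖φ (ζ ^ (t : ZMod ℓ).val)‖ = 1 :=
        Complex.norm_eq_one_of_pow_eq_one h3 hl.out.ne_zero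
      have h6 : (starRingEnd ℂ) (φ (ζ ^ (t : ZMod ℓ).val)) * φ (ζ ^ (t : ZMod ℓ).val) = 1 := by
        rw [Complex.conj_mul', h5]
        simp
      have h7 : φ (ζ ^ (t : ZMod ℓ).val) ≠ 0 := by
        intro h
        rw [h, norm_zero] at h5
        exact zero_ne_one h5
      exact mul_right_cancel₀ h7 (h1.trans h6.symm))
    hγ
    (by
      intro g t t' h
      refine PG_map (g : Ω →+* Ω) (AK_map (g : Ω →+* Ω) _ _ ?_ J c) _
      intro x
      rw [MulChar.pow_apply' _ (val_ne t), MulChar.pow_apply' _ (val_ne t')]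
      by_cases hx : IsUnit x
      · obtain ⟨i, _, hi⟩ := hζ.eq_pow_of_pow_eq_one (hunit x hx)
        rw [← hi, ← pow_mul, ← pow_mul, mul_comm i, mul_comm i, pow_mul, pow_mul, map_pow]
        exact congrArg (· ^ i) h
      · rw [χΩ.map_nonunit hx, zero_pow (val_ne t), zero_pow (val_ne t'), map_zero])
    (by
      rintro φ ⟨t, i⟩
      rw [← hc2]
      have h1 : (χΩ.ringHomComp φ) ^ ℓ = 1 := by
        ext u
        rw [MulChar.pow_apply_coe, MulChar.one_apply_coe, MulChar.ringHomComp_apply, ← map_pow,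
          hunit _ u.isUnit, map_one]
      have h3 : χΩ.ringHomComp φ ≠ 1 := by
        intro h
        apply hχΩ1
        ext u
        apply φ.injective
        rw [← MulChar.ringHomComp_apply, h, MulChar.one_apply_coe, MulChar.one_apply_coe, map_one]
      refine hpur (χΩ.ringHomComp φ) h1 h3 t (fun i => φ (γ (t, i))) ?_ i
      rw [← PG_map φ (AK_map φ (χΩ ^ (t : ZMod ℓ).val) _ ?_ J c) (J.card - 1), hγ,
        Polynomial.map_prod]
      · refine Finset.prod_congr rfl fun i _ => ?_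
        simp
      · intro x
        rw [MulChar.pow_apply' _ (val_ne t), MulChar.pow_apply' _ (val_ne t), map_pow,
          MulChar.ringHomComp_apply])
    (by
      rintro ⟨t, i⟩
      apply PG_root_integral (AK_zero (χΩ ^ (t : ZMod ℓ).val) J c)
        (AK_integral hl.out.ne_zero _ (pow_ch hχΩ hχΩ1 t).1 J c) (J.card - 1)
      rw [hγ, eval_prod]
      exact Finset.prod_eq_zero (Finset.mem_univ i) (by simp))
  rw [← hc1] at hmain
  have hfun : (fun x => j (γ x)) = Γ := funext hγj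
  rw [hfun] at hmain
  exact ⟨fun x => hpur χ hχ hχ1 x.1 (fun i => Γ (x.1, i)) (hΓ x.1) x.2, hmain.1, hmain.2⟩

end

end Pool.Agent.H856.WE
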