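import Pool.Agent.H856.WD.Defs
import Pool.Agent.H856.WD.Act

/-! # Fields in which `p` does not split: statements -/

set_option autoImplicit false

open Polynomial

namespace Pool.Agent.H856.WE

open Pool.Agent.H856.WD

/-- PLA2: a `p`-adic valuation `v` of the algebraic numbers, for a number `θ` whose minimal polynomial is
irreducible over the `p`-adic numbers. It is invariant under automorphisms which map `θ` to any given
conjugate; and a criterion for roots of unity -/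
def S_PLA2 : Prop :=
  ∀ (p : ℕ) [Fact p.Prime] (θ : AlgebraicClosure ℚ),
    Irreducible ((minpoly ℚ θ).map (algebraMap ℚ ℚ_[p])) →
    ∃ v : AlgebraicClosure ℚ → ℝ,
      (∀ x y, x ≠ 0 → y ≠ 0 → v (x * y) = v x + v y) ∧
      (∀ θ' : AlgebraicClosure ℚ, aeval θ' (minpoly ℚ θ) = 0 →
        ∃ d : AlgebraicClosure ℚ ≃+* AlgebraicClosure ℚ, d θ = θ' ∧ ∀ x, v (d x) = v x) ∧
      (∀ (x : AlgebraicClosure ℚ) (a : ℕ), x ≠ 0 → IsIntegral ℤ ((p : AlgebraicClosure ℚ) ^ a * x) →
        (∀ σ : AlgebraicClosure ℚ ≃+* AlgebraicClosure ℚ, σ θ = θ → v (σ x) = 0) →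
        (∀ φ : AlgebraicClosure ℚ →+* ℂ, ‖φ x‖ = 1) → ∃ m : ℕ, 0 < m ∧ x ^ m = 1)

/-- GLU2: the `θ t`, `t` in `T`, are the conjugates of an algebraic number whose minimal polynomial is
irreducible over the `p`-adic numbers; each of them generates the same field, on which the
complex conjugation is an automorphism `τ` that does not depend on the embedding. The polynomials `P t`
are conjugate in the same way, of degree `N ≤ 3`, and their roots `γ (t, i)` are integers with all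
absolute values `√q`, `q = p ^ a` -/
def S_GLU2 : Prop :=
  S_ACT → S_PLA2 →
  ∀ (p : ℕ) [Fact p.Prime] (a N : ℕ) (T : Type) [Fintype T] [DecidableEq T] [Nonempty T]
    (θ : T → AlgebraicClosure ℚ) (τ : T → T)
    (P : T → (AlgebraicClosure ℚ)[X]) (γ : T × Fin N → AlgebraicClosure ℚ)
    (j : AlgebraicClosure ℚ →+* ℂ),
    0 < a → 1 ≤ N → N ≤ 3 → Function.Injective θ →
    (∀ t, Irreducible ((minpoly ℚ (θ t)).map (algebraMap ℚ ℚ_[p]))) →
    (∀ t x, aeval x (minpoly ℚ (θ t)) = 0 ↔ ∃ t', x = θ t') →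
    (∀ (g : AlgebraicClosure ℚ ≃+* AlgebraicClosure ℚ) (t t' : T), g (θ t) = θ t → g (θ t') = θ t') →
    (∀ (φ : AlgebraicClosure ℚ →+* ℂ) (t : T), φ (θ (τ t)) = (starRingEnd ℂ) (φ (θ t))) →
    (∀ t, P t = ∏ i, (X - C (γ (t, i)))) →
    (∀ (g : AlgebraicClosure ℚ ≃+* AlgebraicClosure ℚ) (t t' : T),
      g (θ t) = θ t' → (P t).map (g : _ →+* _) = P t') →
    (∀ (φ : AlgebraicClosure ℚ →+* ℂ) (x : T × Fin N), ‖φ (γ x)‖ ^ 2 = (p : ℝ) ^ a) →
    (∀ x, IsIntegral ℤ (γ x)) →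
    DetRel ((p : ℂ) ^ a) (fun x => j (γ x)) ∧
      (CaseA ((p : ℂ) ^ a) (fun x => j (γ x)) ∨ CaseB ((p : ℂ) ^ a) (fun x => j (γ x)))

open NumberField in
/-- SPL: if there is only one prime ideal above `p` in a Galois number field, the minimal polynomials of
its generators are irreducible over the `p`-adic numbers -/
def S_SPL : Prop :=
  ∀ (p : ℕ) [Fact p.Prime] (E : Type) [Field E] [NumberField E] [IsGalois ℚ E] (θ : E),
    IntermediateField.adjoin ℚ {θ} = ⊤ →
    (∀ P Q : Ideal (𝓞 E), P.IsPrime → Q.IsPrime → (p : 𝓞 E) ∈ P → (p : 𝓞 E) ∈ Q → P = Q) →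
    Irreducible ((minpoly ℚ θ).map (algebraMap ℚ ℚ_[p]))

end Pool.Agent.H856.WE
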